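import Mathlib

/-!
Freeness of a finite module over a local ring whose maximal ideal is generated by a sequence
which is regular on the module.
-/

namespace Pool.Agent.CN

theorem mem_smul_top_pi_iff {A : Type*} [CommRing A] (I : Ideal A) {ι : Type*} [Finite ι]
    (u : ι → A) : u ∈ (I • ⊤ : Submodule A (ι → A)) ↔ ∀ i, u i ∈ I := by
  classical
  have := Fintype.ofFinite ι
  constructor
  · intro h i
    have h2 : (LinearMap.proj i : (ι → A) →ₗ[A] A) u ∈
        Submodule.map (LinearMap.proj i : (ι → A) →ₗ[A] A) (I • ⊤ : Submodule A (ι → A)) :=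
      Submodule.mem_map_of_mem h
    rw [Submodule.map_smul''] at h2
    have h3 : (I • Submodule.map (LinearMap.proj i : (ι → A) →ₗ[A] A) ⊤ : Submodule A A) ≤
        I • ⊤ := Submodule.smul_mono le_rfl le_top
    have h4 := h3 h2
    simpa using h4
  · intro h
    have h1 : u = ∑ i, (u i) • (Pi.single i (1 : A) : ι → A) := by
      ext j
      simp [Finset.sum_apply, Pi.single_apply]
    rw [h1]
    exact Submodule.sum_mem _ fun i _ => Submodule.smul_mem_smul (h i) trivial

/-- Linear independence of a minimal generating family of a finite module on which the generators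
of the maximal ideal form a regular sequence. -/
theorem linInd_of_regular {A M : Type*} [CommRing A] [IsLocalRing A] [IsNoetherianRing A]
    [AddCommGroup M] [Module A M] {d : ℕ} (x : Fin d → A)
    (hx : Ideal.span (Set.range x) = IsLocalRing.maximalIdeal A)
    (hreg : ∀ (i : Fin d) (z : M),
      x i • z ∈ (Ideal.span (x '' {j | j < i}) • ⊤ : Submodule A M) →
        z ∈ (Ideal.span (x '' {j | j < i}) • ⊤ : Submodule A M))
    {ι : Type*} [Fintype ι] (v : ι → M) (hv : Submodule.span A (Set.range v) = ⊤)
    (hker : ∀ a : ι → A, ∑ i, a i • v i = 0 → ∀ i, a i ∈ IsLocalRing.maximalIdeal A) :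
    LinearIndependent A v := by
  classical
  let π : (ι → A) →ₗ[A] M := Fintype.linearCombination A v
  have hπ : LinearMap.range π = ⊤ := by
    rw [Fintype.range_linearCombination, hv]
  let N : ℕ → Ideal A := fun i => Ideal.span (x '' {j | (j : ℕ) < i})
  have hNd : N d = IsLocalRing.maximalIdeal A := by
    rw [← hx]
    change Ideal.span _ = _
    congr 1
    rw [← Set.image_univ]
    congr 1
    ext j
    simp
  have hKfg : (LinearMap.ker π).FG := IsNoetherian.noetherian _
  have hdown : ∀ i, i ≤ d → LinearMap.ker π ≤ N (d - i) • ⊤ := by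
    intro i
    induction i with
    | zero =>
      intro _ a ha
      rw [Nat.sub_zero, hNd, mem_smul_top_pi_iff]
      exact hker a ha
    | succ i ih =>
      intro hi
      have ih' := ih (by omega)
      obtain ⟨l, hl⟩ : ∃ l, d - i = l + 1 := ⟨d - i - 1, by omega⟩
      have hl2 : d - (i + 1) = l := by omega
      rw [hl2]
      rw [hl] at ih'
      have hld : l < d := by omega
      refine Submodule.le_of_le_smul_of_le_jacobson_bot (I := IsLocalRing.maximalIdeal A) hKfg
        (IsLocalRing.maximalIdeal_le_jacobson _) ?_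
      have hNl : N (l + 1) = N l ⊔ Ideal.span {x ⟨l, hld⟩} := by
        change Ideal.span _ = Ideal.span _ ⊔ Ideal.span _
        rw [← Ideal.span_union]
        congr 1
        ext y
        constructor
        · rintro ⟨j, hj, rfl⟩
          by_cases hjl : (j : ℕ) = l
          · right
            have : j = ⟨l, hld⟩ := Fin.ext hjl
            rw [this]
            rfl
          · left
            refine ⟨j, ?_, rfl⟩
            have : (j : ℕ) < l + 1 := hj
            change (j : ℕ) < l
            omega
        · rintro (⟨j, hj, rfl⟩ | hy)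
          · exact ⟨j, Nat.lt_succ_of_lt hj, rfl⟩
          · refine ⟨⟨l, hld⟩, ?_, hy.symm⟩
            change l < l + 1
            omega
      intro a ha
      have h1 := ih' ha
      rw [hNl, Submodule.sup_smul] at h1
      obtain ⟨u, hu, w0, hw0, huw⟩ := Submodule.mem_sup.mp h1
      rw [Submodule.ideal_span_singleton_smul] at hw0
      obtain ⟨w, -, rfl⟩ := (Submodule.mem_smul_pointwise_iff_exists _ _ _).mp hw0
      have hπa : π a = 0 := ha
      have h2 : x ⟨l, hld⟩ • π w = -π u := by
        rw [← huw, map_add] at hπa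
        change π u + π (x ⟨l, hld⟩ • w) = 0 at hπa
        rw [map_smul] at hπa
        exact eq_neg_of_add_eq_zero_right hπa
      have hNl' : N l = Ideal.span (x '' {j | j < ⟨l, hld⟩}) := by
        change Ideal.span _ = Ideal.span _
        congr 1
      have hmapN : Submodule.map π (N l • ⊤) = (N l • ⊤ : Submodule A M) := by
        rw [Submodule.map_smul'', Submodule.map_top, hπ]
      have h3 : π w ∈ (N l • ⊤ : Submodule A M) := by
        rw [hNl']
        refine hreg _ _ ?_
        rw [h2, ← hNl', ← hmapN]
        exact Submodule.neg_mem _ (Submodule.mem_map_of_mem hu)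
      rw [← hmapN] at h3
      obtain ⟨w', hw', hww'⟩ := h3
      have hκ : w - w' ∈ LinearMap.ker π := by
        rw [LinearMap.mem_ker, map_sub, hww', sub_self]
      have h4 : a = (u + x ⟨l, hld⟩ • w') + x ⟨l, hld⟩ • (w - w') := by
        rw [← huw]
        change u + x ⟨l, hld⟩ • w = _
        rw [smul_sub]
        abel
      rw [h4]
      refine Submodule.add_mem_sup (Submodule.add_mem _ hu (Submodule.smul_mem _ _ hw')) ?_
      refine Submodule.smul_mem_smul ?_ hκ
      rw [← hx]
      exact Ideal.subset_span ⟨_, rfl⟩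
  have h0 := hdown d le_rfl
  have hN0 : N (d - d) = ⊥ := by
    rw [Nat.sub_self]
    change Ideal.span _ = ⊥
    simp
  rw [hN0, Submodule.bot_smul] at h0
  exact linearIndependent_iff_injective_fintypeLinearCombination.mpr
    (LinearMap.ker_eq_bot.mp (le_bot_iff.mp h0))

/-- A finite module on which the generators of the maximal ideal form a regular sequence is free. -/
theorem free_of_regular {A M : Type*} [CommRing A] [IsLocalRing A] [IsNoetherianRing A]
    [AddCommGroup M] [Module A M] [Module.Finite A M] {d : ℕ} (x : Fin d → A)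
    (hx : Ideal.span (Set.range x) = IsLocalRing.maximalIdeal A)
    (hreg : ∀ (i : Fin d) (z : M),
      x i • z ∈ (Ideal.span (x '' {j | j < i}) • ⊤ : Submodule A M) →
        z ∈ (Ideal.span (x '' {j | j < i}) • ⊤ : Submodule A M)) : Module.Free A M := by
  classical
  have hex : ∃ n, ∃ v : Fin n → M, Submodule.span A (Set.range v) = ⊤ :=
    Module.Finite.exists_fin (R := A) (M := M)
  obtain ⟨h, ⟨v, hv⟩, hmin⟩ : ∃ h, (∃ v : Fin h → M, Submodule.span A (Set.range v) = ⊤) ∧
      ∀ m < h, ¬ ∃ v : Fin m → M, Submodule.span A (Set.range v) = ⊤ :=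
    ⟨Nat.find hex, Nat.find_spec hex, fun m hm => Nat.find_min hex hm⟩
  refine Module.Free.of_basis (Module.Basis.mk (linInd_of_regular x hx hreg v hv ?_) hv.ge)
  intro a ha j
  rw [IsLocalRing.mem_maximalIdeal, mem_nonunits_iff]
  intro hu
  obtain ⟨h', hh'⟩ : ∃ h', h = h' + 1 := ⟨h - 1, by have := j.2; omega⟩
  refine hmin h' (by omega) ?_
  subst hh'
  refine ⟨fun i => v (j.succAbove i), ?_⟩
  rw [eq_top_iff, ← hv, Submodule.span_le]
  rintro _ ⟨i, rfl⟩
  by_cases hij : i = j
  · subst hij
    have h1 := ha
    rw [Fin.sum_univ_succAbove _ i] at h1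
    obtain ⟨u, hu⟩ := hu
    have h2 : v i = ((u⁻¹ : Aˣ) : A) • (a i • v i) := by
      rw [smul_smul, ← hu, Units.inv_mul, one_smul]
    have h3 : a i • v i = -∑ l, a (i.succAbove l) • v (i.succAbove l) :=
      eq_neg_of_add_eq_zero_left h1
    rw [h2, h3]
    refine Submodule.smul_mem _ _ (Submodule.neg_mem _ (Submodule.sum_mem _ fun l _ =>
      Submodule.smul_mem _ _ (Submodule.subset_span ⟨l, rfl⟩)))
  · obtain ⟨l, hl⟩ := Fin.exists_succAbove_eq hij
    exact Submodule.subset_span ⟨l, by subst hl; rfl⟩

end Pool.Agent.CN
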