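import Pool.Agent.Lib_helper22.CN.MinRed
import Pool.Agent.Lib_helper22.CN.Free

/-!
Colon capturing and freeness over a power series ring.
-/

namespace Pool.Agent.CN

open MvPowerSeries

/-- Membership in the ideal generated by powers of some of the variables. -/
theorem mem_span_X_pow_iff {ι k : Type*} [Finite ι] [CommRing k] (q : ℕ) (S : Set ι)
    (f : MvPowerSeries ι k) :
    f ∈ Ideal.span ((fun j => (X j : MvPowerSeries ι k) ^ q) '' S) ↔
      ∀ e : ι →₀ ℕ, coeff e f ≠ 0 → ∃ j ∈ S, q ≤ e j := by
  classical
  have := Fintype.ofFinite ι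
  constructor
  · intro hf
    refine Submodule.span_induction (p := fun f _ =>
      ∀ e : ι →₀ ℕ, coeff e f ≠ 0 → ∃ j ∈ S, q ≤ e j) ?_ ?_ ?_ ?_ hf
    · rintro _ ⟨j, hj, rfl⟩ e he
      refine ⟨j, hj, ?_⟩
      simp only [X_pow_eq, coeff_monomial] at he
      split_ifs at he with h
      · rw [h]
        simp
      · exact absurd rfl he
    · intro e he
      simp at he
    · intro x y _ _ hx hy e he
      rw [map_add] at he
      by_cases hxe : coeff e x = 0
      · exact hy e (by rintro h; rw [hxe, h] at he; simp at he)
      · exact hx e hxe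
    · intro r x _ hx e he
      rw [smul_eq_mul, coeff_mul] at he
      obtain ⟨z, hz, hne⟩ := Finset.exists_ne_zero_of_sum_ne_zero he
      rw [Finset.HasAntidiagonal.mem_antidiagonal] at hz
      have hx2 : coeff z.2 x ≠ 0 := fun h => hne (by rw [h, mul_zero])
      obtain ⟨j, hj, hqj⟩ := hx z.2 hx2
      refine ⟨j, hj, ?_⟩
      rw [← hz, Finsupp.add_apply]
      omega
  · intro hf
    have hch : ∀ e : ι →₀ ℕ, ∃ j : Option ι, (∃ j ∈ S, q ≤ e j) → ∃ j' ∈ S, j = some j' ∧ q ≤ e j' := by
      intro e
      by_cases he : ∃ j ∈ S, q ≤ e j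
      · obtain ⟨j, hj, hq⟩ := he
        exact ⟨some j, fun _ => ⟨j, hj, rfl, hq⟩⟩
      · exact ⟨none, fun h => absurd h he⟩
    choose c hc using hch
    let g : ι → MvPowerSeries ι k := fun j a =>
      if c (a + Finsupp.single j q) = some j then coeff (a + Finsupp.single j q) f else 0
    have hg : ∀ j a, coeff a (g j) =
        if c (a + Finsupp.single j q) = some j then coeff (a + Finsupp.single j q) f else 0 :=
      fun d a => rfl
    have hsum : f = ∑ j ∈ Finset.univ.filter (· ∈ S), monomial (Finsupp.single j q) (1 : k) * g j := by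
      ext e
      rw [map_sum]
      simp_rw [coeff_monomial_mul, hg]
      by_cases he : coeff e f = 0
      · rw [he]
        refine (Finset.sum_eq_zero fun j _ => ?_).symm
        split_ifs with hle h3
        · rw [tsub_add_cancel_of_le hle, he, mul_zero]
        · rw [mul_zero]
        · rfl
      · obtain ⟨j, hj, hcj, hq⟩ := hc e (hf e he)
        have hle : Finsupp.single j q ≤ e := by
          rw [Finsupp.single_le_iff]
          exact hq
        rw [Finset.sum_eq_single j]
        · rw [if_pos hle, tsub_add_cancel_of_le hle, if_pos hcj, one_mul]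
        · intro d _ hne
          split_ifs with hle h3
          · rw [tsub_add_cancel_of_le hle, hcj] at h3
            exact absurd (Option.some.inj h3).symm hne
          · rw [mul_zero]
          · rfl
        · intro hnot
          exact absurd (Finset.mem_filter.mpr ⟨Finset.mem_univ _, hj⟩) hnot
    rw [hsum]
    refine Ideal.sum_mem _ fun j hj => Ideal.mul_mem_right _ _ ?_
    rw [← X_pow_eq]
    exact Ideal.subset_span ⟨j, (Finset.mem_filter.mp hj).2, rfl⟩

/-- The powers of the variables form a regular sequence. -/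
theorem X_pow_regular {ι k : Type*} [Finite ι] [CommRing k] (q : ℕ) (S : Set ι) (i : ι)
    (hi : i ∉ S) (f : MvPowerSeries ι k)
    (hf : X i ^ q * f ∈ Ideal.span ((fun j => (X j : MvPowerSeries ι k) ^ q) '' S)) :
    f ∈ Ideal.span ((fun j => (X j : MvPowerSeries ι k) ^ q) '' S) := by
  classical
  rw [mem_span_X_pow_iff] at hf ⊢
  intro e he
  have h1 : coeff (Finsupp.single i q + e) (X i ^ q * f) ≠ 0 := by
    rw [X_pow_eq, coeff_add_monomial_mul, one_mul]
    exact he
  obtain ⟨j, hj, hq⟩ := hf _ h1
  refine ⟨j, hj, ?_⟩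
  rw [Finsupp.add_apply, Finsupp.single_apply, if_neg (by rintro rfl; exact hi hj), zero_add] at hq
  exact hq

/-- Generic freeness of a finite module over a domain. -/
theorem exists_free_submodule {A M : Type*} [CommRing A] [IsDomain A] [AddCommGroup M]
    [Module A M] [Module.Finite A M] :
    ∃ (h : ℕ) (β : (Fin h → A) →ₗ[A] M) (c : A), c ≠ 0 ∧ Function.Injective β ∧
      ∀ z : M, c • z ∈ LinearMap.range β := by
  classical
  obtain ⟨n, v, hv⟩ := Module.Finite.exists_fin (R := A) (M := M)
  obtain ⟨I, hI, hmax⟩ := exists_maximal_linearIndepOn A v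
  choose a ha0 ha using hmax
  let c : A := ∏ i : Fin n, if h : i ∉ I then a i h else 1
  have hc0 : c ≠ 0 := by
    rw [Finset.prod_ne_zero_iff]
    intro i _
    split_ifs with h
    · exact one_ne_zero
    · exact ha0 i h
  have hcv : ∀ i, c • v i ∈ Submodule.span A (v '' I) := by
    intro i
    by_cases h : i ∈ I
    · exact Submodule.smul_mem _ _ (Submodule.subset_span ⟨i, h, rfl⟩)
    · have : c = (∏ j ∈ Finset.univ.erase i, if h : j ∉ I then a j h else 1) * a i h := by
        change ∏ i : Fin n, (if h : i ∉ I then a i h else 1) = _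
        rw [← Finset.prod_erase_mul _ _ (Finset.mem_univ i), dif_pos h]
      rw [this, mul_smul]
      exact Submodule.smul_mem _ _ (ha i h)
  have hcz : ∀ z, c • z ∈ Submodule.span A (v '' I) := by
    intro z
    have hz : z ∈ Submodule.span A (Set.range v) := by rw [hv]; trivial
    refine Submodule.span_induction (p := fun z _ => c • z ∈ Submodule.span A (v '' I))
      ?_ ?_ ?_ ?_ hz
    · rintro _ ⟨i, rfl⟩
      exact hcv i
    · rw [smul_zero]; exact Submodule.zero_mem _
    · intro x y _ _ hx hy
      rw [smul_add]
      exact Submodule.add_mem _ hx hy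
    · intro r x _ hx
      rw [smul_comm]
      exact Submodule.smul_mem _ _ hx
  let e : Fin (Fintype.card I) ≃ I := (Fintype.equivFin I).symm
  let w : Fin (Fintype.card I) → M := fun j => v (e j)
  have hw : LinearIndependent A w := by
    have h1 : LinearIndependent A (fun i : I => v i) := hI
    exact h1.comp e e.injective
  refine ⟨Fintype.card I, Fintype.linearCombination A w, c, hc0, ?_, ?_⟩
  · exact linearIndependent_iff_injective_fintypeLinearCombination.mp hw
  · intro z
    rw [Fintype.range_linearCombination]
    have : Set.range w = v '' I := by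
      ext y
      constructor
      · rintro ⟨j, rfl⟩
        exact ⟨e j, (e j).2, rfl⟩
      · rintro ⟨i, hi, rfl⟩
        exact ⟨e.symm ⟨i, hi⟩, by simp [w]⟩
    rw [this]
    exact hcz z

end Pool.Agent.CN
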