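import Pool.Agent.Lib_helper22.CN.CM3

/-!
Bases of a Cohen-Macaulay finite algebra over a power series ring.
-/

namespace Pool.Agent.CN

open MvPowerSeries IsLocalRing

section

variable {k T : Type*} [Field k] [CommRing T] {d : ℕ} [Algebra (MvPowerSeries (Fin d) k) T]

/-- the images of the variables -/
noncomputable def vars (k T : Type*) [Field k] [CommRing T] {d : ℕ}
    [Algebra (MvPowerSeries (Fin d) k) T] : Fin d → T :=
  fun i => algebraMap (MvPowerSeries (Fin d) k) T (X i)

/-- the ideal `m_A T` -/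
noncomputable def maxExt (k T : Type*) [Field k] [CommRing T] {d : ℕ}
    [Algebra (MvPowerSeries (Fin d) k) T] : Ideal T :=
  Ideal.span (Set.range (vars k T (d := d)))

theorem maxExt_eq_map : maxExt k T (d := d) =
    (maximalIdeal (MvPowerSeries (Fin d) k)).map (algebraMap (MvPowerSeries (Fin d) k) T) := by
  rw [maximalIdeal_mvPowerSeries, maxExt, Ideal.map_span, ← Set.range_comp]
  rfl

theorem mem_maxExt_iff (z : T) : z ∈ maxExt k T (d := d) ↔
    z ∈ (maximalIdeal (MvPowerSeries (Fin d) k) • ⊤ : Submodule (MvPowerSeries (Fin d) k) T) := by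
  rw [Ideal.smul_top_eq_map, maxExt_eq_map]
  rfl

/-- Regularity of the variables on `T`. -/
def VarsRegular (k T : Type*) [Field k] [CommRing T] {d : ℕ}
    [Algebra (MvPowerSeries (Fin d) k) T] : Prop :=
  ∀ (i : Fin d) (z : T),
    (X i : MvPowerSeries (Fin d) k) • z ∈
      (Ideal.span ((fun i : Fin d => (X i : MvPowerSeries (Fin d) k)) '' {j | j < i}) • ⊤ :
        Submodule (MvPowerSeries (Fin d) k) T) →
    z ∈ (Ideal.span ((fun i : Fin d => (X i : MvPowerSeries (Fin d) k)) '' {j | j < i}) • ⊤ :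
        Submodule (MvPowerSeries (Fin d) k) T)

theorem varsRegular_of_splitting [Module.Finite (MvPowerSeries (Fin d) k) T] (p : ℕ)
    [Fact p.Prime] [CharP T p]
    (hsplit : ∀ c : MvPowerSeries (Fin d) k, c ≠ 0 → ∃ (e : ℕ) (φ : T →+ T),
      (∀ r s : T, φ (r ^ p ^ e * s) = r * φ s) ∧
        φ (algebraMap (MvPowerSeries (Fin d) k) T c) = 1) : VarsRegular k T (d := d) := by
  obtain ⟨c, hc, hkill⟩ := colon_killer (ι := Fin d) (k := k) (R := T)
  obtain ⟨e, φ, hφ, hφc⟩ := hsplit c hc
  intro i z hz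
  have hconv : ∀ (S : Set (Fin d)) (z : T),
      z ∈ (Ideal.span ((fun i : Fin d => (X i : MvPowerSeries (Fin d) k)) '' S) • ⊤ :
        Submodule (MvPowerSeries (Fin d) k) T) ↔
      z ∈ Ideal.span ((fun j => algebraMap (MvPowerSeries (Fin d) k) T (X j)) '' S) := by
    intro S z
    rw [Ideal.smul_top_eq_map]
    change z ∈ Ideal.map (algebraMap (MvPowerSeries (Fin d) k) T) _ ↔ _
    rw [Ideal.map_span, ← Set.image_comp]
    rfl
  rw [hconv] at hz ⊢
  rw [Algebra.smul_def] at hz
  have h1 := pow_mem_bracket p e _ _ _ hz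
  rw [mul_pow] at h1
  have h2 := hkill (p ^ e) {j | j < i} i (by simp) _ h1
  have h3 := frob_linear_mem φ hφ _ _ _ h2
  rw [mul_comm, hφ, hφc, mul_one] at h3
  exact h3

/-- Lifting a basis modulo `m_A T`. -/
theorem exists_basis_of_lift [Module.Finite (MvPowerSeries (Fin d) k) T]
    (hreg : VarsRegular k T (d := d)) {ι : Type*} [Fintype ι] (v : ι → T)
    (hgen : ∀ z : T, ∃ c : ι → MvPowerSeries (Fin d) k, z - ∑ i, c i • v i ∈ maxExt k T (d := d))
    (hind : ∀ c : ι → MvPowerSeries (Fin d) k, ∑ i, c i • v i ∈ maxExt k T (d := d) →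
      ∀ i, c i ∈ maximalIdeal (MvPowerSeries (Fin d) k)) :
    ∃ b : Module.Basis ι (MvPowerSeries (Fin d) k) T, ∀ i, b i = v i := by
  have hspan : Submodule.span (MvPowerSeries (Fin d) k) (Set.range v) = ⊤ := by
    rw [eq_top_iff]
    refine Submodule.le_of_le_smul_of_le_jacobson_bot
      (I := maximalIdeal (MvPowerSeries (Fin d) k)) Module.Finite.fg_top
      (maximalIdeal_le_jacobson _) ?_
    intro z _
    obtain ⟨c, hc⟩ := hgen z
    have h1 : z = ∑ i, c i • v i + (z - ∑ i, c i • v i) := by ring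
    rw [h1]
    refine Submodule.add_mem_sup (Submodule.sum_mem _ fun i _ =>
      Submodule.smul_mem _ _ (Submodule.subset_span ⟨i, rfl⟩)) ?_
    exact (mem_maxExt_iff _).mp hc
  have hli : LinearIndependent (MvPowerSeries (Fin d) k) v := by
    refine linInd_of_regular (fun i : Fin d => (X i : MvPowerSeries (Fin d) k))
      (maximalIdeal_mvPowerSeries (Fin d) k).symm hreg v hspan ?_
    intro a ha
    refine hind a ?_
    rw [ha]
    exact Ideal.zero_mem _
  exact ⟨Module.Basis.mk hli hspan.ge, fun i => by simp⟩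

theorem isUnit_of_constantCoeff {c : MvPowerSeries (Fin d) k}
    (hc : c ∉ maximalIdeal (MvPowerSeries (Fin d) k)) : IsUnit c := by
  rw [mem_maximalIdeal, mem_nonunits_iff, not_not] at hc
  exact hc

/-- A basis `1, y_1, ..., y_r` of `T` over `A` with `y_i` in the maximal ideal. -/
theorem exists_basis_one [IsLocalRing T] [Module.Finite (MvPowerSeries (Fin d) k) T]
    (hreg : VarsRegular k T (d := d))
    (hres : ∀ z : T, ∃ c : k, z - algebraMap (MvPowerSeries (Fin d) k) T (C c) ∈ maximalIdeal T)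
    (hvars : ∀ i, vars k T (d := d) i ∈ maximalIdeal T) :
    ∃ (r : ℕ) (b : Module.Basis (Fin (r + 1)) (MvPowerSeries (Fin d) k) T),
      b 0 = 1 ∧ ∀ i : Fin r, b i.succ ∈ maximalIdeal T := by
  classical
  let A := MvPowerSeries (Fin d) k
  let _ : Algebra k T := ((algebraMap A T).comp (C : k →+* A)).toAlgebra
  have hsm : ∀ (c : k) (z : T), c • z = algebraMap A T (C c) * z := fun c z => Algebra.smul_def c z
  let J : Submodule k T := (maxExt k T (d := d)).restrictScalars k
  have hJm : maxExt k T (d := d) ≤ maximalIdeal T := by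
    rw [maxExt, Ideal.span_le]
    rintro _ ⟨i, rfl⟩
    exact hvars i
  -- constants
  have hconst : ∀ a : A, algebraMap A T a - algebraMap A T (C (constantCoeff a)) ∈
      maxExt k T (d := d) := by
    intro a
    rw [← map_sub, maxExt_eq_map]
    refine Ideal.mem_map_of_mem _ ?_
    rw [mem_maximalIdeal, mem_nonunits_iff, MvPowerSeries.isUnit_iff_constantCoeff]
    simp
  have hfin : Module.Finite k (T ⧸ J) := by
    obtain ⟨n, v, hv⟩ := Module.Finite.exists_fin (R := A) (M := T)
    refine Module.Finite.of_surjective (Fintype.linearCombination k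
      (fun i : Fin n => (J.mkQ (v i)))) ?_
    intro w
    obtain ⟨z, rfl⟩ := J.mkQ_surjective w
    have hz : z ∈ Submodule.span A (Set.range v) := by rw [hv]; trivial
    obtain ⟨c, hc⟩ := (Submodule.mem_span_range_iff_exists_fun A).mp hz
    refine ⟨fun i => constantCoeff (c i), ?_⟩
    rw [Fintype.linearCombination_apply, ← hc]
    simp_rw [← map_smul]
    rw [← map_sum, ← sub_eq_zero, ← map_sub, ← LinearMap.mem_ker, Submodule.ker_mkQ,
      ← Finset.sum_sub_distrib]
    refine Submodule.sum_mem _ fun i _ => ?_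
    change constantCoeff (c i) • v i - c i • v i ∈ maxExt k T (d := d)
    rw [hsm, Algebra.smul_def, ← sub_mul]
    refine Ideal.mul_mem_right _ _ ?_
    rw [← neg_sub]
    exact (Ideal.neg_mem_iff _).mpr (hconst (c i))
  let U : Submodule k (T ⧸ J) := Submodule.map J.mkQ ((maximalIdeal T).restrictScalars k)
  let bU := Module.finBasis k U
  set r := Module.finrank k U with hr
  have hlift : ∀ i : Fin r, ∃ y ∈ maximalIdeal T, J.mkQ y = (bU i : T ⧸ J) := by
    intro i
    obtain ⟨y, hy, hy2⟩ := (bU i).2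
    exact ⟨y, hy, hy2⟩
  choose y hym hyb using hlift
  let v : Fin (r + 1) → T := Fin.cons 1 y
  obtain ⟨b, hb⟩ := exists_basis_of_lift hreg v (by
    intro z
    obtain ⟨c, hc⟩ := hres z
    have hw : J.mkQ (z - algebraMap A T (C c)) ∈ U := ⟨_, hc, rfl⟩
    have h1 := bU.sum_repr ⟨_, hw⟩
    have h2 := congrArg (fun u : U => (u : T ⧸ J)) h1
    simp only [Submodule.coe_sum, Submodule.coe_smul] at h2
    refine ⟨Fin.cons (C c) (fun i => C (bU.repr ⟨_, hw⟩ i)), ?_⟩
    rw [Fin.sum_univ_succ]
    simp only [v, Fin.cons_zero, Fin.cons_succ]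
    simp_rw [← hyb, ← map_smul] at h2
    rw [← map_sum, ← sub_eq_zero, ← map_sub, ← LinearMap.mem_ker, Submodule.ker_mkQ] at h2
    have h3 : z - ((C c : A) • (1 : T) + ∑ i, (C (bU.repr ⟨_, hw⟩ i) : A) • y i) =
        -(∑ i, (bU.repr ⟨_, hw⟩ i) • y i - (z - algebraMap A T (C c))) := by
      rw [Algebra.smul_def, mul_one]
      have h4 : ∀ i, (C (bU.repr ⟨_, hw⟩ i) : A) • y i = (bU.repr ⟨_, hw⟩ i) • y i := by
        intro i
        rw [hsm, Algebra.smul_def]
      simp_rw [h4]
      ring
    rw [h3]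
    exact (Ideal.neg_mem_iff _).mpr h2) (by
    intro c hc
    rw [Fin.sum_univ_succ] at hc
    simp only [v, Fin.cons_zero, Fin.cons_succ] at hc
    have hy0 : ∑ i : Fin r, c i.succ • y i ∈ maximalIdeal T := by
      refine Ideal.sum_mem _ fun i _ => ?_
      rw [Algebra.smul_def]
      exact Ideal.mul_mem_left _ _ (hym i)
    have hc0 : c 0 ∈ maximalIdeal A := by
      by_contra hcon
      have h1 : IsUnit (algebraMap A T (c 0)) := (isUnit_of_constantCoeff hcon).map _
      have h2 : algebraMap A T (c 0) ∈ maximalIdeal T := by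
        have h3 := Ideal.sub_mem _ (hJm hc) hy0
        rw [add_sub_cancel_right, Algebra.smul_def, mul_one] at h3
        exact h3
      exact (mem_maximalIdeal _).mp h2 h1
    have hc0' : c 0 • (1 : T) ∈ maxExt k T (d := d) := by
      rw [Algebra.smul_def, mul_one, maxExt_eq_map]
      exact Ideal.mem_map_of_mem _ hc0
    have h4 : ∑ i : Fin r, c i.succ • y i ∈ maxExt k T (d := d) := by
      have := Ideal.sub_mem _ hc hc0'
      rwa [add_sub_cancel_left] at this
    have h5 : ∑ i : Fin r, (constantCoeff (c i.succ)) • y i ∈ J := by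
      have h6 : ∑ i : Fin r, (constantCoeff (c i.succ)) • y i = ∑ i : Fin r, c i.succ • y i -
          ∑ i : Fin r, (algebraMap A T (c i.succ) - algebraMap A T (C (constantCoeff (c i.succ)))) *
            y i := by
        rw [← Finset.sum_sub_distrib]
        refine Finset.sum_congr rfl fun i _ => ?_
        rw [hsm, Algebra.smul_def]
        ring
      rw [h6]
      exact Ideal.sub_mem _ h4 (Ideal.sum_mem _ fun i _ => Ideal.mul_mem_right _ _ (hconst _))
    have h7 : ∑ i : Fin r, (constantCoeff (c i.succ)) • bU i = 0 := by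
      apply Subtype.ext
      simp only [Submodule.coe_sum, Submodule.coe_smul, Submodule.coe_zero]
      simp_rw [← hyb, ← map_smul]
      rw [← map_sum, ← LinearMap.mem_ker, Submodule.ker_mkQ]
      exact h5
    have h8 := (Fintype.linearIndependent_iff.mp bU.linearIndependent) _ h7
    intro i
    refine Fin.cases hc0 (fun i => ?_) i
    rw [mem_maximalIdeal, mem_nonunits_iff, MvPowerSeries.isUnit_iff_constantCoeff, h8 i]
    simp)
  refine ⟨r, b, by rw [hb]; rfl, fun i => ?_⟩
  rw [hb]
  exact hym i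

end

end Pool.Agent.CN
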