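import Pool.Agent.Lib_helper22.CN.CM

namespace Pool.Agent.CN

open MvPowerSeries

/-- Colon capturing with a uniform multiplier. -/
theorem colon_killer {ι k R : Type*} [Finite ι] [Field k] [CommRing R]
    [Algebra (MvPowerSeries ι k) R] [Module.Finite (MvPowerSeries ι k) R] :
    ∃ c : MvPowerSeries ι k, c ≠ 0 ∧ ∀ (q : ℕ) (S : Set ι) (i : ι), i ∉ S → ∀ z : R,
      algebraMap (MvPowerSeries ι k) R (X i) ^ q * z ∈
        Ideal.span ((fun j => algebraMap (MvPowerSeries ι k) R (X j) ^ q) '' S) →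
      algebraMap (MvPowerSeries ι k) R c * z ∈
        Ideal.span ((fun j => algebraMap (MvPowerSeries ι k) R (X j) ^ q) '' S) := by
  obtain ⟨h, β, c, hc, hβ, hcβ⟩ := exists_free_submodule (A := MvPowerSeries ι k) (M := R)
  refine ⟨c, hc, ?_⟩
  intro q S i hi z hz
  set I : Ideal (MvPowerSeries ι k) :=
    Ideal.span ((fun j => (X j : MvPowerSeries ι k) ^ q) '' S) with hI
  have hmap : Ideal.span ((fun j => algebraMap (MvPowerSeries ι k) R (X j) ^ q) '' S) =
      I.map (algebraMap (MvPowerSeries ι k) R) := by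
    rw [hI, Ideal.map_span, ← Set.image_comp]
    congr 2
    ext j
    simp
  rw [hmap] at hz ⊢
  have hz' : algebraMap (MvPowerSeries ι k) R (X i) ^ q * z ∈
      (I • ⊤ : Submodule (MvPowerSeries ι k) R) := by
    rw [Ideal.smul_top_eq_map]
    exact hz
  suffices hgoal : c • z ∈ (I • ⊤ : Submodule (MvPowerSeries ι k) R) by
    rw [Ideal.smul_top_eq_map, Algebra.smul_def] at hgoal
    exact hgoal
  -- multiplication by `c` maps `I R` to `β (I A^h)`
  have hcI : ∀ y ∈ (I • ⊤ : Submodule (MvPowerSeries ι k) R), c • y ∈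
      Submodule.map β (I • ⊤ : Submodule (MvPowerSeries ι k) (Fin h → MvPowerSeries ι k)) := by
    intro y hy
    rw [Submodule.map_smul'', Submodule.map_top]
    refine Submodule.smul_induction_on hy ?_ ?_
    · intro r hr n _
      rw [smul_comm]
      exact Submodule.smul_mem_smul hr (hcβ n)
    · intro x y hx hy
      rw [smul_add]
      exact Submodule.add_mem _ hx hy
  obtain ⟨u, hu, hu2⟩ := hcI _ hz'
  obtain ⟨w, hw⟩ := hcβ z
  have h1 : β ((X i : MvPowerSeries ι k) ^ q • w) = β u := by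
    rw [map_smul, hw, hu2, Algebra.smul_def, Algebra.smul_def, Algebra.smul_def, map_pow]
    ring
  have h2 := hβ h1
  have h3 : w ∈ (I • ⊤ : Submodule (MvPowerSeries ι k) (Fin h → MvPowerSeries ι k)) := by
    rw [mem_smul_top_pi_iff]
    intro j
    refine X_pow_regular q S i hi _ ?_
    have h4 := congrFun h2 j
    rw [Pi.smul_apply, smul_eq_mul] at h4
    rw [h4]
    exact (mem_smul_top_pi_iff I u).mp hu j
  have h5 : β w ∈ Submodule.map β
      (I • ⊤ : Submodule (MvPowerSeries ι k) (Fin h → MvPowerSeries ι k)) :=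
    Submodule.mem_map_of_mem h3
  rw [Submodule.map_smul'', hw] at h5
  have h6 : (I • Submodule.map β ⊤ : Submodule (MvPowerSeries ι k) R) ≤ I • ⊤ :=
    Submodule.smul_mono le_rfl le_top
  exact h6 h5

end Pool.Agent.CN
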