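import Pool.Agent.Lib_helper22.CN.CM2

/-!
Strong F-regularity along the Noether normalisation implies freeness (Cohen-Macaulay property).
-/

namespace Pool.Agent.CN

open MvPowerSeries

/-- A `p^{-e}`-linear map sends the `q`-th bracket power of an ideal into the ideal. -/
theorem frob_linear_mem {R : Type*} [CommRing R] {q : ℕ} (φ : R →+ R)
    (hφ : ∀ r s : R, φ (r ^ q * s) = r * φ s) {ι : Type*} (x : ι → R) (S : Set ι) (y : R)
    (hy : y ∈ Ideal.span ((fun j => x j ^ q) '' S)) : φ y ∈ Ideal.span (x '' S) := by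
  refine Submodule.span_induction (p := fun y _ => ∀ r : R, φ (r * y) ∈ Ideal.span (x '' S))
    ?_ ?_ ?_ ?_ hy 1 |> fun h => by simpa using h
  · rintro _ ⟨j, hj, rfl⟩ r
    change φ (r * x j ^ q) ∈ _
    rw [mul_comm, hφ]
    exact Ideal.mul_mem_right _ _ (Ideal.subset_span ⟨j, hj, rfl⟩)
  · intro r
    rw [mul_zero, map_zero]
    exact Ideal.zero_mem _
  · intro a b _ _ ha hb r
    rw [mul_add, map_add]
    exact Ideal.add_mem _ (ha r) (hb r)
  · intro a b _ hb r
    rw [smul_eq_mul, ← mul_assoc]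
    exact hb (r * a)

/-- `q`-th powers of elements of an ideal. -/
theorem pow_mem_bracket {R : Type*} [CommRing R] (p : ℕ) [Fact p.Prime] [CharP R p] (e : ℕ)
    {ι : Type*} (x : ι → R) (S : Set ι) (y : R) (hy : y ∈ Ideal.span (x '' S)) :
    y ^ p ^ e ∈ Ideal.span ((fun j => x j ^ p ^ e) '' S) := by
  have h := Ideal.mem_map_of_mem (iterateFrobenius R p e) hy
  rw [Ideal.map_span, ← Set.image_comp] at h
  exact h

/-- If every nonzero element of the power series ring `A` becomes a splitting element in `R`,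
then the finite `A`-algebra `R` is free over `A`. -/
theorem free_of_splitting {k R : Type*} [Field k] [CommRing R] (p : ℕ) [Fact p.Prime]
    [CharP R p] {d : ℕ} [Algebra (MvPowerSeries (Fin d) k) R]
    [Module.Finite (MvPowerSeries (Fin d) k) R]
    (hsplit : ∀ c : MvPowerSeries (Fin d) k, c ≠ 0 → ∃ (e : ℕ) (φ : R →+ R),
      (∀ r s : R, φ (r ^ p ^ e * s) = r * φ s) ∧
        φ (algebraMap (MvPowerSeries (Fin d) k) R c) = 1) :
    Module.Free (MvPowerSeries (Fin d) k) R := by
  obtain ⟨c, hc, hkill⟩ := colon_killer (ι := Fin d) (k := k) (R := R)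
  obtain ⟨e, φ, hφ, hφc⟩ := hsplit c hc
  refine free_of_regular (fun i : Fin d => (X i : MvPowerSeries (Fin d) k))
    (maximalIdeal_mvPowerSeries (Fin d) k).symm ?_
  intro i z hz
  have hconv : ∀ (S : Set (Fin d)) (z : R),
      z ∈ (Ideal.span ((fun i : Fin d => (X i : MvPowerSeries (Fin d) k)) '' S) • ⊤ :
        Submodule (MvPowerSeries (Fin d) k) R) ↔
      z ∈ Ideal.span ((fun j => algebraMap (MvPowerSeries (Fin d) k) R (X j)) '' S) := by
    intro S z
    rw [Ideal.smul_top_eq_map]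
    change z ∈ Ideal.map (algebraMap (MvPowerSeries (Fin d) k) R) _ ↔ _
    rw [Ideal.map_span, ← Set.image_comp]
    rfl
  rw [hconv] at hz ⊢
  rw [Algebra.smul_def] at hz
  have h1 := pow_mem_bracket p e _ _ _ hz
  rw [mul_pow] at h1
  have h2 := hkill (p ^ e) {j | j < i} i (by simp) _ h1
  have h3 := frob_linear_mem φ hφ _ _ _ h2
  rw [mul_comm, hφ, hφc, mul_one] at h3
  exact h3

end Pool.Agent.CN
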