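import Pool.Agent.Lib_helper22.CN.FieldSmooth

/-!
Coefficient fields and Noether normalisation of complete local rings of characteristic `p`.
-/

namespace Pool.Agent.CN

open IsLocalRing

/-- A complete local ring of characteristic `p` has a coefficient field. -/
theorem exists_coefficientField (R : Type*) [CommRing R] [IsLocalRing R]
    [IsAdicComplete (maximalIdeal R) R] (p : ℕ) [Fact p.Prime] [CharP R p] :
    ∃ s : ResidueField R →+* R, ∀ a, residue R (s a) = a := by
  let _ : Algebra (ZMod p) R := ZMod.algebra R p
  have : CharP (ResidueField R) p := by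
    refine (CharP.charP_iff_prime_eq_zero Fact.out).mpr ?_
    have : ((p : ℕ) : R) = 0 := CharP.cast_eq_zero R p
    rw [← map_natCast (residue R), this, map_zero]
  have : Algebra.FormallySmooth (ZMod p) (ResidueField R) := formallySmooth_zmod _ p
  obtain ⟨g, hg⟩ := Algebra.FormallySmooth.exists_mkₐ_comp_eq_of_isAdicComplete
    (R := ZMod p) (I := maximalIdeal R) (A := ResidueField R) (S := R)
    (AlgHom.id (ZMod p) (ResidueField R))
  exact ⟨g.toRingHom, fun a => congrArg (fun h => h a) hg⟩

/-- Evaluation of power series at elements of an ideal of completeness. -/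
theorem exists_evalHom {k R : Type*} [CommRing k] [CommRing R] (m : Ideal R) [IsAdicComplete m R]
    (s : k →+* R) {ι : Type*} [Finite ι] (x : ι → R) (hx : ∀ i, x i ∈ m) :
    ∃ F : MvPowerSeries ι k →+* R, (∀ a, F (MvPowerSeries.C a) = s a) ∧
      ∀ i, F (MvPowerSeries.X i) = x i := by
  let _ : WithIdeal R := ⟨m⟩
  have hadic : IsAdic m := rfl
  have hct := (IsAdic.isAdicComplete_iff hadic).mp inferInstance
  have := hct.1
  have := hct.2
  let _ : UniformSpace k := ⊥
  have : DiscreteTopology k := ⟨rfl⟩
  have hs : Continuous s := continuous_of_discreteTopology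
  have hev : MvPowerSeries.HasEval x := by
    refine ⟨fun i => WithIdeal.isTopologicallyNilpotent_of_mem (hx i), ?_⟩
    rw [Filter.cofinite_eq_bot]
    exact Filter.tendsto_bot
  refine ⟨MvPowerSeries.eval₂Hom hs hev, ?_, ?_⟩
  · intro a
    rw [MvPowerSeries.coe_eval₂Hom, MvPowerSeries.eval₂_C]
  · intro i
    rw [MvPowerSeries.coe_eval₂Hom, MvPowerSeries.eval₂_X]

/-- A finite power of a precomplete ring is precomplete. -/
theorem isPrecomplete_pi {A : Type*} [CommRing A] (I : Ideal A) [IsPrecomplete I A]
    (ι : Type*) [Finite ι] : IsPrecomplete I (ι → A) := by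
  classical
  have := Fintype.ofFinite ι
  refine ⟨fun f hf => ?_⟩
  have hcoord : ∀ i, ∃ L : A, ∀ n, f n i ≡ L [SMOD (I ^ n • ⊤ : Submodule A A)] := by
    intro i
    refine IsPrecomplete.prec inferInstance (f := fun n => f n i) ?_
    intro a b hab
    have h := hf hab
    rw [SModEq.sub_mem] at h ⊢
    have h2 : (LinearMap.proj i : (ι → A) →ₗ[A] A) (f a - f b) ∈
        Submodule.map (LinearMap.proj i : (ι → A) →ₗ[A] A) (I ^ a • ⊤ : Submodule A (ι → A)) :=
      Submodule.mem_map_of_mem h
    rw [Submodule.map_smul''] at h2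
    exact Submodule.smul_mono le_rfl le_top h2
  choose L hL using hcoord
  refine ⟨L, fun n => ?_⟩
  rw [SModEq.sub_mem]
  have h1 : f n - L = ∑ i, (f n i - L i) • (Pi.single i (1 : A) : ι → A) := by
    ext j
    simp [Finset.sum_apply, Pi.single_apply]
  rw [h1]
  refine Submodule.sum_mem _ fun i _ => ?_
  refine Submodule.smul_mem_smul ?_ trivial
  have := hL i n
  rw [SModEq.sub_mem] at this
  simpa using this

/-- Complete Nakayama: a separated module which is finite modulo the ideal is finite. -/
theorem finite_of_complete {A M : Type*} [CommRing A] [AddCommGroup M] [Module A M]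
    (I : Ideal A) [IsPrecomplete I A] [IsHausdorff I M] (T : Finset M)
    (hT : Submodule.span A (T : Set M) ⊔ I • ⊤ = ⊤) : Submodule.span A (T : Set M) = ⊤ := by
  classical
  let f : (T → A) →ₗ[A] M := Fintype.linearCombination A (fun t : T => (t : M))
  have hf : LinearMap.range f = Submodule.span A (T : Set M) := by
    rw [Fintype.range_linearCombination]
    simp
  have := isPrecomplete_pi I T
  rw [← hf, LinearMap.range_eq_top]
  refine surjective_of_mkQ_comp_surjective (I := I) ?_
  intro y
  obtain ⟨y, rfl⟩ := Submodule.mkQ_surjective _ y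
  have hy : y ∈ Submodule.span A (T : Set M) ⊔ I • ⊤ := by rw [hT]; trivial
  obtain ⟨a, ha, b, hb, rfl⟩ := Submodule.mem_sup.mp hy
  rw [← hf] at ha
  obtain ⟨c, rfl⟩ := ha
  refine ⟨c, ?_⟩
  rw [LinearMap.comp_apply, map_add]
  have : (Submodule.mkQ (I • ⊤ : Submodule A M)) b = 0 := by
    rw [← LinearMap.mem_ker, Submodule.ker_mkQ]
    exact hb
  rw [this, add_zero]

/-- Modulo each power of the maximal ideal, a local ring with a coefficient field is a finite
vector space. -/
theorem exists_finset_span_sup {k R : Type*} [Field k] [CommRing R] (m : Ideal R) (hm : m.FG)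
    [Algebra k R] (hres : ∀ r : R, ∃ c : k, r - algebraMap k R c ∈ m) (N : ℕ) :
    ∃ T : Finset R, Submodule.span k (T : Set R) ⊔ (m ^ N).restrictScalars k = ⊤ := by
  classical
  induction N with
  | zero => exact ⟨∅, by simp⟩
  | succ N ih =>
    obtain ⟨T, hT⟩ := ih
    obtain ⟨G, hG⟩ := Ideal.FG.pow hm (n := N)
    refine ⟨T ∪ G, ?_⟩
    have hGm : ∀ g ∈ G, g ∈ m ^ N := fun g hg => hG ▸ Ideal.subset_span hg
    have key : ∀ z ∈ m ^ N, z ∈ Submodule.span k (G : Set R) ⊔ (m ^ (N + 1)).restrictScalars k := by
      intro z hz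
      rw [← hG] at hz
      refine Submodule.span_induction (p := fun z _ => z ∈
        Submodule.span k (G : Set R) ⊔ (m ^ (N + 1)).restrictScalars k) ?_ ?_ ?_ ?_ hz
      · intro x hx
        exact Submodule.mem_sup_left (Submodule.subset_span hx)
      · exact Submodule.zero_mem _
      · intro x y _ _ hx hy
        exact Submodule.add_mem _ hx hy
      · intro r x _ hx
        obtain ⟨a, ha, b, hb, rfl⟩ := Submodule.mem_sup.mp hx
        rw [smul_add]
        refine Submodule.add_mem _ ?_ (Submodule.mem_sup_right (Ideal.mul_mem_left _ _ hb))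
        refine Submodule.span_induction (p := fun a _ => r • a ∈
          Submodule.span k (G : Set R) ⊔ (m ^ (N + 1)).restrictScalars k) ?_ ?_ ?_ ?_ ha
        · intro g hg
          obtain ⟨c, hc⟩ := hres r
          have h1 : r • g = c • g + (r - algebraMap k R c) * g := by
            rw [smul_eq_mul, Algebra.smul_def]; ring
          rw [h1]
          refine Submodule.add_mem _ (Submodule.mem_sup_left
            (Submodule.smul_mem _ _ (Submodule.subset_span hg))) (Submodule.mem_sup_right ?_)
          change (r - algebraMap k R c) * g ∈ m ^ (N + 1)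
          rw [pow_succ']
          exact Ideal.mul_mem_mul hc (hGm g hg)
        · rw [smul_zero]; exact Submodule.zero_mem _
        · intro x y _ _ hx hy
          rw [smul_add]
          exact Submodule.add_mem _ hx hy
        · intro c x _ hx
          rw [smul_comm]
          exact Submodule.smul_mem _ _ hx
    rw [eq_top_iff, ← hT]
    refine sup_le ?_ ?_
    · refine le_trans (Submodule.span_mono ?_) le_sup_left
      simp
    · intro z hz
      have := key z hz
      refine (sup_le_sup_right (Submodule.span_mono ?_) _ :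
        Submodule.span k (G : Set R) ⊔ (m ^ (N + 1)).restrictScalars k ≤ _) this
      simp

/-- Noether normalisation, finiteness part: let `k` be a coefficient field of the complete local
ring `R` and let `x_1, ..., x_n` generate an ideal containing a power of the maximal ideal.
Then `R` is a finite module over `k[[X_1, ..., X_n]]`. -/
theorem exists_noether {k R : Type*} [Field k] [CommRing R] (m : Ideal R) [IsAdicComplete m R]
    (hm : m.FG) (s : k →+* R) (hres : ∀ r : R, ∃ c : k, r - s c ∈ m)
    {ι : Type*} [Finite ι] (x : ι → R) (hx : ∀ i, x i ∈ m) (N : ℕ)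
    (hN : m ^ N ≤ Ideal.span (Set.range x)) :
    ∃ F : MvPowerSeries ι k →+* R, (∀ a, F (MvPowerSeries.C a) = s a) ∧
      (∀ i, F (MvPowerSeries.X i) = x i) ∧ F.Finite := by
  classical
  obtain ⟨F, hF1, hF2⟩ := exists_evalHom m s x hx
  refine ⟨F, hF1, hF2, ?_⟩
  let _ : Algebra (MvPowerSeries ι k) R := F.toAlgebra
  let _ : Algebra k R := s.toAlgebra
  change Module.Finite (MvPowerSeries ι k) R
  let J : Ideal (MvPowerSeries ι k) := Ideal.span (Set.range MvPowerSeries.X)
  have hmap : J.map (algebraMap (MvPowerSeries ι k) R) = Ideal.span (Set.range x) := by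
    rw [Ideal.map_span, ← Set.range_comp]
    congr 2
    ext i
    exact hF2 i
  have hle : J.map (algebraMap (MvPowerSeries ι k) R) ≤ m := by
    rw [hmap, Ideal.span_le]
    rintro _ ⟨i, rfl⟩
    exact hx i
  have : IsHausdorff J R := IsHausdorff.of_map hle
  obtain ⟨T, hT⟩ := exists_finset_span_sup m hm (k := k) hres N
  refine ⟨T, finite_of_complete J T ?_⟩
  rw [eq_top_iff]
  intro z _
  have hz : z ∈ Submodule.span k (T : Set R) ⊔ (m ^ N).restrictScalars k := by rw [hT]; trivial
  obtain ⟨a, ha, b, hb, rfl⟩ := Submodule.mem_sup.mp hz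
  refine Submodule.add_mem _ (Submodule.mem_sup_left ?_) (Submodule.mem_sup_right ?_)
  · refine Submodule.span_induction (p := fun a _ => a ∈
      Submodule.span (MvPowerSeries ι k) (T : Set R)) ?_ ?_ ?_ ?_ ha
    · intro x hx
      exact Submodule.subset_span hx
    · exact Submodule.zero_mem _
    · intro x y _ _ hx hy
      exact Submodule.add_mem _ hx hy
    · intro c x _ hx
      have : c • x = (MvPowerSeries.C c : MvPowerSeries ι k) • x := by
        rw [Algebra.smul_def, Algebra.smul_def]
        congr 1
        exact (hF1 c).symm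
      rw [this]
      exact Submodule.smul_mem _ _ hx
  · have h1 : b ∈ J.map (algebraMap (MvPowerSeries ι k) R) := hmap ▸ hN hb
    rw [Ideal.smul_top_eq_map]
    exact h1

end Pool.Agent.CN
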