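import Mathlib

/-!
The maximal ideal of a power series ring over a field and its powers.
-/

namespace Pool.Agent.CN

open MvPowerSeries

/-- the ideal generated by the variables -/
noncomputable abbrev varIdeal (ι k : Type*) [CommRing k] : Ideal (MvPowerSeries ι k) :=
  Ideal.span (Set.range X)

theorem exists_le_degree_eq {ι : Type*} (n : ℕ) (e : ι →₀ ℕ) (he : n ≤ e.degree) :
    ∃ d : ι →₀ ℕ, d ≤ e ∧ d.degree = n := by
  classical
  induction n with
  | zero => exact ⟨0, by simp, by simp⟩
  | succ n ih =>
    obtain ⟨d, hd, hdn⟩ := ih (by omega)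
    have hne : d ≠ e := by
      rintro rfl
      omega
    obtain ⟨i, hi⟩ : ∃ i, d i < e i := by
      by_contra hcon
      push Not at hcon
      exact hne (le_antisymm hd hcon)
    refine ⟨d + Finsupp.single i 1, ?_, ?_⟩
    · intro j
      by_cases hj : j = i
      · subst hj
        simpa using hi
      · have := hd j
        rw [Finsupp.add_apply, Finsupp.single_apply, if_neg (Ne.symm hj)]
        simpa using this
    · rw [map_add, hdn, Finsupp.degree_single]

/-- the ideal of power series of order at least `n` -/
def ordIdeal (ι k : Type*) [CommRing k] (n : ℕ) : Ideal (MvPowerSeries ι k) where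
  carrier := {f | ∀ d : ι →₀ ℕ, d.degree < n → coeff d f = 0}
  add_mem' := by
    intro f g hf hg d hd
    rw [map_add, hf d hd, hg d hd, add_zero]
  zero_mem' := by
    intro d _
    simp
  smul_mem' := by
    classical
    intro r f hf d hd
    rw [smul_eq_mul, coeff_mul]
    refine Finset.sum_eq_zero fun x hx => ?_
    rw [Finset.HasAntidiagonal.mem_antidiagonal] at hx
    have h2 := congrArg Finsupp.degree hx
    rw [map_add] at h2
    rw [hf x.2 (by omega), mul_zero]

theorem mem_ordIdeal {ι k : Type*} [CommRing k] {n : ℕ} {f : MvPowerSeries ι k} :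
    f ∈ ordIdeal ι k n ↔ ∀ d : ι →₀ ℕ, d.degree < n → coeff d f = 0 := Iff.rfl

theorem mul_mem_ordIdeal {ι k : Type*} [CommRing k] {a b : ℕ} {f g : MvPowerSeries ι k}
    (hf : f ∈ ordIdeal ι k a) (hg : g ∈ ordIdeal ι k b) : f * g ∈ ordIdeal ι k (a + b) := by
  classical
  intro d hd
  rw [coeff_mul]
  refine Finset.sum_eq_zero fun x hx => ?_
  rw [Finset.HasAntidiagonal.mem_antidiagonal] at hx
  have h2 := congrArg Finsupp.degree hx
  rw [map_add] at h2
  by_cases h : x.1.degree < a
  · rw [hf x.1 h, zero_mul]
  · rw [hg x.2 (by omega), mul_zero]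

theorem mem_varIdeal_pow_iff {ι k : Type*} [Finite ι] [CommRing k] (n : ℕ)
    (f : MvPowerSeries ι k) :
    f ∈ varIdeal ι k ^ n ↔ ∀ d : ι →₀ ℕ, d.degree < n → coeff d f = 0 := by
  classical
  constructor
  · suffices h : varIdeal ι k ^ n ≤ ordIdeal ι k n from fun hf => h hf
    induction n with
    | zero => intro f _ d hd; omega
    | succ n ih =>
      rw [pow_succ]
      refine Ideal.mul_le.mpr fun f hf g hg => mul_mem_ordIdeal (ih hf) ?_
      suffices h : varIdeal ι k ≤ ordIdeal ι k 1 from h hg
      rw [Ideal.span_le]
      rintro _ ⟨i, rfl⟩ d hd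
      have hd0 : d = 0 := by
        rw [← Finsupp.degree_eq_zero_iff]
        omega
      subst hd0
      simp
  · intro hf
    have := Fintype.ofFinite ι
    -- choice of a part of degree `n` of each exponent
    have hch : ∀ e : ι →₀ ℕ, ∃ d : ι →₀ ℕ, n ≤ e.degree → d ≤ e ∧ d.degree = n := by
      intro e
      by_cases he : n ≤ e.degree
      · obtain ⟨d, hd⟩ := exists_le_degree_eq n e he
        exact ⟨d, fun _ => hd⟩
      · exact ⟨0, fun h => absurd h he⟩
    choose c hc using hch
    let D : Finset (ι →₀ ℕ) := (Finset.finsuppAntidiag Finset.univ n)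
    have hD : ∀ d : ι →₀ ℕ, d ∈ D ↔ d.degree = n := by
      intro d
      rw [Finset.mem_finsuppAntidiag]
      simp [Finsupp.degree_eq_sum]
    let g : (ι →₀ ℕ) → MvPowerSeries ι k := fun d a =>
      if c (a + d) = d then coeff (a + d) f else 0
    have hg : ∀ d a, coeff a (g d) = if c (a + d) = d then coeff (a + d) f else 0 :=
      fun d a => rfl
    have hsum : f = ∑ d ∈ D, monomial d (1 : k) * g d := by
      ext e
      rw [map_sum]
      simp_rw [coeff_monomial_mul, hg]
      by_cases he : n ≤ e.degree
      · obtain ⟨h1, h2⟩ := hc e he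
        rw [Finset.sum_eq_single (c e)]
        · rw [if_pos h1, tsub_add_cancel_of_le h1, if_pos rfl, one_mul]
        · intro d _ hne
          split_ifs with hle h3
          · rw [tsub_add_cancel_of_le hle] at h3
            exact absurd h3.symm hne
          · rw [mul_zero]
          · rfl
        · intro hnot
          exact absurd ((hD _).mpr h2) hnot
      · rw [hf e (by omega)]
        refine (Finset.sum_eq_zero fun d hd => ?_).symm
        rw [hD] at hd
        rw [if_neg]
        intro hle
        have := Finsupp.degree_mono hle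
        omega
    rw [hsum]
    refine Ideal.sum_mem _ fun d hd => Ideal.mul_mem_right _ _ ?_
    rw [hD] at hd
    have hmon : ∀ (n : ℕ) (d : ι →₀ ℕ), d.degree = n → monomial d (1 : k) ∈ varIdeal ι k ^ n := by
      intro n
      induction n with
      | zero => intro d _; simp
      | succ n ih =>
        intro d hd
        obtain ⟨i, hi⟩ : ∃ i, d i ≠ 0 := by
          by_contra hcon
          push Not at hcon
          have : d = 0 := Finsupp.ext hcon
          subst this
          simp at hd
        have hle : Finsupp.single i 1 ≤ d := by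
          rw [Finsupp.single_le_iff]
          omega
        have h1 : (d - Finsupp.single i 1) + Finsupp.single i 1 = d :=
          tsub_add_cancel_of_le hle
        have h2 := congrArg Finsupp.degree h1
        rw [map_add, Finsupp.degree_single] at h2
        rw [← h1, ← one_mul (1 : k), ← monomial_mul_monomial, pow_succ]
        exact Ideal.mul_mem_mul (ih _ (by omega)) (Ideal.subset_span ⟨i, rfl⟩)
    exact hmon n d hd

end Pool.Agent.CN
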