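import Pool.Agent.Lib_helper22.CN.Cohen
import Pool.Agent.Lib_helper22.CN.PSIdeal

/-!
Dimension of power series rings and injectivity of Noether normalisations.
-/

namespace Pool.Agent.CN

open IsLocalRing MvPowerSeries

instance isDomain_mvPowerSeries (ι k : Type*) [CommRing k] [IsDomain k] :
    IsDomain (MvPowerSeries ι k) := NoZeroDivisors.to_isDomain _

theorem maximalIdeal_mvPowerSeries (ι k : Type*) [Finite ι] [Field k] :
    maximalIdeal (MvPowerSeries ι k) = varIdeal ι k := by
  ext f
  rw [mem_maximalIdeal, mem_nonunits_iff, MvPowerSeries.isUnit_iff_constantCoeff]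
  have h := mem_varIdeal_pow_iff 1 f
  rw [pow_one] at h
  rw [h, isUnit_iff_ne_zero, not_not]
  constructor
  · intro h d hd
    have hd0 : d = 0 := by
      rw [← Finsupp.degree_eq_zero_iff]
      omega
    subst hd0
    simpa using h
  · intro h
    simpa using h 0 (by simp)

theorem mvPowerSeries_dim_le (ι k : Type*) [Finite ι] [Field k] :
    ringKrullDim (MvPowerSeries ι k) ≤ Nat.card ι := by
  refine (ringKrullDim_le_spanFinrank_maximalIdeal (MvPowerSeries ι k)).trans ?_
  rw [maximalIdeal_mvPowerSeries]
  have h := Submodule.spanFinrank_span_le_ncard_of_finite (R := MvPowerSeries ι k)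
    (Set.finite_range (X : ι → MvPowerSeries ι k))
  have h2 : (Set.range (X : ι → MvPowerSeries ι k)).ncard ≤ Nat.card ι := by
    rw [← Set.image_univ]
    exact (Set.ncard_image_le Set.finite_univ).trans (by rw [Set.ncard_univ])
  exact_mod_cast h.trans h2

theorem le_mvPowerSeries_dim (n : ℕ) (k : Type*) [Field k] :
    (n : WithBot ℕ∞) ≤ ringKrullDim (MvPowerSeries (Fin n) k) := by
  induction n with
  | zero => simpa using ringKrullDim_nonneg_of_nontrivial
  | succ n ih =>
    have h1 := ringKrullDim_succ_le_ringKrullDim_powerseries (R := MvPowerSeries (Fin n) k)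
    have h2 := ringKrullDim_eq_of_ringEquiv (finSuccEquiv k n).toRingEquiv
    rw [h2]
    refine le_trans ?_ h1
    push_cast
    gcongr

theorem mvPowerSeries_dim (n : ℕ) (k : Type*) [Field k] :
    ringKrullDim (MvPowerSeries (Fin n) k) = n :=
  le_antisymm (by simpa using mvPowerSeries_dim_le (Fin n) k) (le_mvPowerSeries_dim n k)

/-- The dimension does not go up along an integral homomorphism. -/
theorem ringKrullDim_le_of_isIntegral {A B : Type*} [CommRing A] [CommRing B] [Algebra A B]
    [Algebra.IsIntegral A B] : ringKrullDim B ≤ ringKrullDim A := by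
  refine Order.krullDim_le_of_strictMono (PrimeSpectrum.comap (algebraMap A B)) ?_
  intro P Q hPQ
  exact Ideal.IsIntegral.comap_lt_comap (R := A) (I := P.asIdeal) (J := Q.asIdeal) hPQ

/-- A finite homomorphism from a domain of dimension at most `dim R` to `R` is injective. -/
theorem injective_of_finite {A R : Type*} [CommRing A] [IsDomain A] [CommRing R] {n : ℕ}
    (hA : ringKrullDim A ≤ n) (hR : (n : WithBot ℕ∞) ≤ ringKrullDim R) (F : A →+* R)
    (hF : F.Finite) : Function.Injective F := by
  by_contra hinj
  rw [injective_iff_map_eq_zero] at hinj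
  push Not at hinj
  obtain ⟨a, ha, ha0⟩ := hinj
  let _ : Algebra (A ⧸ RingHom.ker F) R := (RingHom.kerLift F).toAlgebra
  let _ : Algebra A R := F.toAlgebra
  have : IsScalarTower A (A ⧸ RingHom.ker F) R := IsScalarTower.of_algebraMap_eq (fun x => rfl)
  have : Module.Finite A R := hF
  have : Module.Finite (A ⧸ RingHom.ker F) R := Module.Finite.of_restrictScalars_finite A _ _
  have h1 : ringKrullDim R ≤ ringKrullDim (A ⧸ RingHom.ker F) := ringKrullDim_le_of_isIntegral
  have h2 : ringKrullDim (A ⧸ RingHom.ker F) + 1 ≤ ringKrullDim A :=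
    ringKrullDim_succ_le_of_surjective (Ideal.Quotient.mk _) Ideal.Quotient.mk_surjective
      (mem_nonZeroDivisors_of_ne_zero ha0) (by
        rw [Ideal.Quotient.eq_zero_iff_mem]; exact ha)
  have h3 : (n : WithBot ℕ∞) + 1 ≤ n := by
    calc (n : WithBot ℕ∞) + 1 ≤ ringKrullDim (A ⧸ RingHom.ker F) + 1 := by
          gcongr
          exact hR.trans h1
      _ ≤ n := h2.trans hA
  have h4 : ((n + 1 : ℕ) : WithBot ℕ∞) ≤ (n : ℕ) := by exact_mod_cast h3
  have h5 : n + 1 ≤ n := by exact_mod_cast h4
  omega

/-- A complete local ring of characteristic `p` with finitely generated maximal ideal is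
Noetherian. -/
theorem isNoetherianRing_of_complete (R : Type*) [CommRing R] [IsLocalRing R]
    [IsAdicComplete (maximalIdeal R) R] (p : ℕ) [Fact p.Prime] [CharP R p]
    (hm : (maximalIdeal R).FG) : IsNoetherianRing R := by
  classical
  obtain ⟨s, hs⟩ := exists_coefficientField R p
  obtain ⟨G, hG⟩ := hm
  obtain ⟨F, -, -, hF⟩ := exists_noether (maximalIdeal R) ⟨G, hG⟩ s
    (fun r => ⟨residue R r, by
      rw [← residue_eq_zero_iff, map_sub, hs, sub_self]⟩)
    (fun g : G => (g : R)) (fun g => hG ▸ Ideal.subset_span g.2) 1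
    (by rw [pow_one, ← hG]; simp)
  let _ : Algebra (MvPowerSeries G (ResidueField R)) R := F.toAlgebra
  have : Module.Finite (MvPowerSeries G (ResidueField R)) R := hF
  exact IsNoetherianRing.of_finite (MvPowerSeries G (ResidueField R)) R

theorem charP_adicCompletion (R : Type*) [CommRing R] [IsLocalRing R] [IsNoetherianRing R]
    (p : ℕ) [Fact p.Prime] [CharP R p] : CharP (AdicCompletion (maximalIdeal R) R) p := by
  refine (CharP.charP_iff_prime_eq_zero Fact.out).mpr ?_
  have : ((p : ℕ) : R) = 0 := CharP.cast_eq_zero R p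
  rw [← map_natCast (algebraMap R (AdicCompletion (maximalIdeal R) R)), this, map_zero]

/-- The completion of a Noetherian local ring of characteristic `p` is Noetherian. -/
theorem isNoetherianRing_adicCompletion (R : Type*) [CommRing R] [IsLocalRing R]
    [IsNoetherianRing R] (p : ℕ) [Fact p.Prime] [CharP R p] :
    IsNoetherianRing (AdicCompletion (maximalIdeal R) R) := by
  have := charP_adicCompletion R p
  refine isNoetherianRing_of_complete _ p ?_
  rw [AdicCompletion.maximalIdeal_eq_map]
  exact Ideal.FG.map (maximalIdeal R).fg_of_isNoetherianRing _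

/-- The completion has the same dimension. -/
theorem ringKrullDim_adicCompletion (R : Type*) [CommRing R] [IsLocalRing R]
    [IsNoetherianRing R] [IsNoetherianRing (AdicCompletion (maximalIdeal R) R)] :
    ringKrullDim (AdicCompletion (maximalIdeal R) R) = ringKrullDim R := by
  rw [← IsLocalRing.maximalIdeal_height_eq_ringKrullDim,
    ← IsLocalRing.maximalIdeal_height_eq_ringKrullDim]
  have hlo : (maximalIdeal (AdicCompletion (maximalIdeal R) R)).LiesOver (maximalIdeal R) :=
    ⟨(IsLocalRing.maximalIdeal_comap
      (algebraMap R (AdicCompletion (maximalIdeal R) R))).symm⟩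
  have h := Ideal.height_eq_height_add_of_liesOver_of_hasGoingDown (maximalIdeal R)
    (maximalIdeal (AdicCompletion (maximalIdeal R) R))
  rw [h]
  have h0 : (maximalIdeal (AdicCompletion (maximalIdeal R) R)).map
      (Ideal.Quotient.mk ((maximalIdeal R).map
        (algebraMap R (AdicCompletion (maximalIdeal R) R)))) = ⊥ := by
    rw [AdicCompletion.maximalIdeal_eq_map]
    exact Ideal.map_quotient_self _
  have hnt : Nontrivial ((AdicCompletion (maximalIdeal R) R) ⧸ (maximalIdeal R).map
        (algebraMap R (AdicCompletion (maximalIdeal R) R))) := by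
    rw [← AdicCompletion.maximalIdeal_eq_map]
    infer_instance
  have hm : ((maximalIdeal R).map
        (algebraMap R (AdicCompletion (maximalIdeal R) R))).IsMaximal := by
    rw [← AdicCompletion.maximalIdeal_eq_map]
    infer_instance
  rw [h0]
  let _ := Ideal.Quotient.field ((maximalIdeal R).map
        (algebraMap R (AdicCompletion (maximalIdeal R) R)))
  have h1 : (⊥ : Ideal ((AdicCompletion (maximalIdeal R) R) ⧸ (maximalIdeal R).map
        (algebraMap R (AdicCompletion (maximalIdeal R) R)))).height = 0 := Ideal.height_bot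
  rw [h1, add_zero]

/-- Noether normalisation: a complete Noetherian local ring `R` of characteristic `p` and of
dimension `d`, with a system of parameters `x`, has a coefficient field `s` such that `R` is a
finite extension of `k[[X_1, ..., X_d]]` with `X_i ↦ x_i`. -/
theorem exists_noether_normalisation (R : Type*) [CommRing R] [IsLocalRing R] [IsNoetherianRing R]
    [IsAdicComplete (maximalIdeal R) R] {d : ℕ} (hd : ringKrullDim R = d)
    (s : ResidueField R →+* R) (hs : ∀ a, residue R (s a) = a)
    (x : Fin d → R) (hx : ∀ i, x i ∈ maximalIdeal R) (N : ℕ)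
    (hN : maximalIdeal R ^ N ≤ Ideal.span (Set.range x)) :
    ∃ F : MvPowerSeries (Fin d) (ResidueField R) →+* R,
      (∀ a, F (C a) = s a) ∧ (∀ i, F (X i) = x i) ∧ F.Finite ∧ Function.Injective F := by
  obtain ⟨F, h1, h2, h3⟩ := exists_noether (maximalIdeal R)
    (maximalIdeal R).fg_of_isNoetherianRing s
    (fun r => ⟨residue R r, by
      rw [← residue_eq_zero_iff, map_sub, hs, sub_self]⟩) x hx N hN
  exact ⟨F, h1, h2, h3, injective_of_finite (mvPowerSeries_dim d _).le hd.ge F h3⟩

end Pool.Agent.CN
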