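import Mathlib

/-!
A field of characteristic `p` is formally smooth over `ZMod p`, and a complete local ring of
characteristic `p` has a coefficient field.
-/

namespace Pool.Agent.CN

open Polynomial

/-- Splitting of a square zero extension of a field of characteristic `p`. -/
theorem exists_section_of_sqzero {E k : Type*} [CommRing E] [Field k] (p : ℕ) [Fact p.Prime]
    [CharP E p] (π : E →+* k) (hπ : Function.Surjective π)
    (h0 : ∀ x y : E, π x = 0 → π y = 0 → x * y = 0) :
    ∃ g : k →+* E, π.comp g = RingHom.id k := by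
  classical
  have hp : p.Prime := Fact.out
  -- units
  have hunit : ∀ x : E, π x ≠ 0 → ∃ y : E, x * y = 1 := by
    intro x hx
    obtain ⟨a, ha⟩ := hπ (π x)⁻¹
    have h1 : π (x * a - 1) = 0 := by
      rw [map_sub, map_mul, ha, map_one, mul_inv_cancel₀ hx, sub_self]
    have h2 := h0 _ _ h1 h1
    refine ⟨a * (2 - x * a), ?_⟩
    linear_combination -h2
  have hpow : ∀ x : E, π x = 0 → x ^ p = 0 := by
    intro x hx
    obtain ⟨q, hq⟩ : ∃ q, p = 2 + q := ⟨p - 2, by have := hp.two_le; omega⟩
    rw [hq, pow_add, pow_two, h0 x x hx hx, zero_mul]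
  -- the poset
  let 𝒮 : Set (Subring E) := {S | (∀ x : E, x ^ p ∈ S) ∧ ∀ x ∈ S, π x = 0 → x = 0}
  have hbase : (frobenius E p).range ∈ 𝒮 := by
    refine ⟨fun x => ⟨x, rfl⟩, ?_⟩
    rintro _ ⟨x, rfl⟩ hx
    rw [frobenius_def] at hx ⊢
    rw [map_pow] at hx
    exact hpow x (pow_eq_zero_iff hp.ne_zero |>.mp hx)
  obtain ⟨S, -, hS⟩ : ∃ S, (frobenius E p).range ≤ S ∧ Maximal (· ∈ 𝒮) S := by
    refine zorn_le_nonempty₀ 𝒮 ?_ _ hbase
    intro c hc hchain y hy
    refine ⟨sSup c, ⟨?_, ?_⟩, fun z hz => le_sSup hz⟩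
    · intro x
      exact (le_sSup hy : y ≤ sSup c) ((hc hy).1 x)
    · intro x hx
      obtain ⟨T, hT, hxT⟩ := (Subring.mem_sSup_of_directedOn ⟨y, hy⟩ hchain.directedOn).mp hx
      exact (hc hT).2 x hxT
  obtain ⟨⟨hS1, hS2⟩, hmax⟩ := hS
  -- `S` is a field
  have hSfield : IsField S := by
    refine ⟨⟨0, 1, fun h => ?_⟩, mul_comm, ?_⟩
    · have : π ((0 : S) : E) = π ((1 : S) : E) := by rw [h]
      simp at this
    · intro a ha
      have hne : π (a : E) ≠ 0 := fun h => ha (Subtype.ext (hS2 _ a.2 h))
      obtain ⟨y, hy⟩ := hunit _ hne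
      refine ⟨a ^ (p - 1) * ⟨y ^ p, hS1 y⟩, Subtype.ext ?_⟩
      have hpp : p - 1 + 1 = p := Nat.sub_add_cancel hp.one_le
      simp only [Subring.coe_mul, SubmonoidClass.coe_pow, Subring.coe_one]
      calc (a : E) * ((a : E) ^ (p - 1) * y ^ p) = ((a : E) ^ (p - 1 + 1)) * y ^ p := by ring
        _ = ((a : E) * y) ^ p := by rw [hpp, mul_pow]
        _ = 1 := by rw [hy, one_pow]
  let _ : Field S := hSfield.toField
  have hinj : Function.Injective (π.comp S.subtype) := by
    rw [injective_iff_map_eq_zero]
    intro a ha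
    exact Subtype.ext (hS2 _ a.2 ha)
  let algk : Algebra S k := (π.comp S.subtype).toAlgebra
  have halg : ∀ a : S, algebraMap S k a = π a := fun a => rfl
  -- surjectivity
  have hsurj : Function.Surjective (π.comp S.subtype) := by
    intro a
    by_contra hcon
    push Not at hcon
    obtain ⟨t, rfl⟩ := hπ a
    let c : S := ⟨t ^ p, hS1 t⟩
    have hirr : Irreducible (X ^ p - C c : S[X]) := by
      refine X_pow_sub_C_irreducible_of_prime hp ?_
      intro b hb
      have h1 : (π b) ^ p = (π t) ^ p := by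
        have := congrArg (fun z : S => π (z : E)) hb
        simpa [c] using this
      have h2 : π (b : E) = π t := by
        have : CharP k p := by
          have := (CharP.charP_iff_prime_eq_zero (R := k) hp).mpr (by
            have : ((p : ℕ) : E) = 0 := CharP.cast_eq_zero E p
            rw [← map_natCast π, this, map_zero])
          exact this
        exact frobenius_inj k p h1
      exact hcon b h2
    have hmonic : (X ^ p - C c : S[X]).Monic := monic_X_pow_sub_C _ hp.ne_zero
    have hroot : aeval (π t) (X ^ p - C c : S[X]) = 0 := by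
      simp [halg, c]
    -- the new subring
    let T : Subring E := (Polynomial.eval₂RingHom S.subtype t).range
    have hST : S ≤ T := by
      intro x hx
      exact ⟨C ⟨x, hx⟩, by simp⟩
    have htT : t ∈ T := ⟨X, by simp⟩
    have hT : T ∈ 𝒮 := by
      refine ⟨fun x => hST (hS1 x), ?_⟩
      rintro _ ⟨Q, rfl⟩ hQ
      have hQ' : aeval (π t) Q = 0 := by
        rw [Polynomial.aeval_def]
        have : Polynomial.eval₂ (algebraMap S k) (π t) Q
            = π (Polynomial.eval₂ S.subtype t Q) := by
          rw [Polynomial.hom_eval₂]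
          rfl
        rw [this]
        exact hQ
      have hdvd : (X ^ p - C c : S[X]) ∣ Q := by
        have hmin := minpoly.eq_of_irreducible_of_monic hirr hroot hmonic
        rw [hmin]
        exact minpoly.dvd S (π t) hQ'
      obtain ⟨W, rfl⟩ := hdvd
      simp [c]
    have hTS := hmax hT hST
    exact hcon ⟨t, hTS htT⟩ rfl
  let e : S ≃+* k := RingEquiv.ofBijective (π.comp S.subtype) ⟨hinj, hsurj⟩
  refine ⟨S.subtype.comp e.symm.toRingHom, ?_⟩
  ext a
  change (π.comp S.subtype) (e.symm a) = a
  exact e.apply_symm_apply a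

/-- A field of characteristic `p` is formally smooth over `ZMod p`. -/
theorem formallySmooth_zmod (k : Type*) [Field k] (p : ℕ) [Fact p.Prime]
    [Algebra (ZMod p) k] : Algebra.FormallySmooth (ZMod p) k := by
  let P := MvPolynomial k (ZMod p)
  let f : P →ₐ[ZMod p] k := MvPolynomial.aeval (fun a : k => a)
  have hf : Function.Surjective f := fun a => ⟨MvPolynomial.X a, MvPolynomial.aeval_X _ _⟩
  have hsurj : Function.Surjective f.kerSquareLift :=
    Ideal.Quotient.lift_surjective_of_surjective _ _ hf
  have hsq : RingHom.ker f.kerSquareLift.toRingHom ^ 2 = ⊥ := by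
    rw [AlgHom.ker_kerSquareLift, Ideal.cotangentIdeal_square]
  have : Nontrivial (P ⧸ RingHom.ker f.toRingHom ^ 2) := hsurj.nontrivial
  have : CharP (P ⧸ RingHom.ker f.toRingHom ^ 2) p := by
    refine (CharP.charP_iff_prime_eq_zero Fact.out).mpr ?_
    have : ((p : ℕ) : P) = 0 := CharP.cast_eq_zero P p
    rw [← map_natCast (Ideal.Quotient.mk _), this, map_zero]
  obtain ⟨g, hg⟩ := exists_section_of_sqzero p f.kerSquareLift.toRingHom hsurj (by
    intro x y hx hy
    have h2 : x * y ∈ RingHom.ker f.kerSquareLift.toRingHom * RingHom.ker f.kerSquareLift.toRingHom :=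
      Ideal.mul_mem_mul hx hy
    have h3 := hsq.le (by rw [pow_two (RingHom.ker f.kerSquareLift.toRingHom)]; exact h2)
    exact h3)
  refine Algebra.FormallySmooth.of_split f
    { g with commutes' := fun r => ?_ } ?_
  · have : g.comp (algebraMap (ZMod p) k) = algebraMap (ZMod p) _ := RingHom.ext_zmod _ _
    exact RingHom.congr_fun this r
  · ext a
    exact RingHom.congr_fun hg a

end Pool.Agent.CN
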