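import Pool.Agent.Lib_helper22.CN.Dim

/-!
Existence of minimal reductions of the maximal ideal of a complete local ring with infinite
coefficient field.
-/

namespace Pool.Agent.CN

open IsLocalRing

/-- The dimension of a ring is at most the dimension of an integral extension. -/
theorem ringKrullDim_le_of_isIntegral_of_injective {A B : Type*} [CommRing A] [CommRing B]
    [Algebra A B] [Algebra.IsIntegral A B] (hinj : Function.Injective (algebraMap A B)) :
    ringKrullDim A ≤ ringKrullDim B := by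
  rw [ringKrullDim, ringKrullDim, Order.krullDim, Order.krullDim]
  refine iSup_le fun l => ?_
  have : FaithfulSMul A B := (faithfulSMul_iff_algebraMap_injective A B).mpr hinj
  obtain ⟨Q, hQ⟩ := (inferInstance : Nonempty ((RelSeries.head l).asIdeal.primesOver B))
  have := hQ.1
  have := hQ.2
  obtain ⟨L, hL, -, -⟩ := Ideal.exists_ltSeries_of_hasGoingUp l Q
  rw [← hL]
  exact le_iSup (fun L : LTSeries (PrimeSpectrum B) => ((L.length : ℕ∞) : WithBot ℕ∞)) L

/-- `x` generates a reduction of `m`. -/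
def IsRed {R : Type*} [CommRing R] (m : Ideal R) {ι : Type*} (x : ι → R) : Prop :=
  (∀ i, x i ∈ m) ∧ ∃ n, m ^ (n + 1) ≤ Ideal.span (Set.range x) * m ^ n

/-- Monomials in congruent variables. -/
theorem prod_sub_prod_mem {R : Type*} [CommRing R] (m J : Ideal R) {ι : Type*} [Fintype ι]
    (u v : ι → R) (hu : ∀ i, u i ∈ m) (hv : ∀ i, v i ∈ m) (huv : ∀ i, u i - v i ∈ J) (n : ℕ) :
    ∀ α : ι →₀ ℕ, α.degree = n + 1 → ∏ i, u i ^ α i - ∏ i, v i ^ α i ∈ J * m ^ n := by
  classical
  have hpow : ∀ (w : ι → R), (∀ i, w i ∈ m) → ∀ α : ι →₀ ℕ, ∏ i, w i ^ α i ∈ m ^ α.degree := by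
    intro w hw α
    rw [Finsupp.degree_eq_sum, ← Finset.prod_pow_eq_pow_sum]
    exact Ideal.prod_mem_prod fun i _ => Ideal.pow_mem_pow (hw i) _
  have hstep : ∀ (w : ι → R) (β : ι →₀ ℕ) (i : ι),
      ∏ j, w j ^ (β + Finsupp.single i 1 : ι →₀ ℕ) j = w i * ∏ j, w j ^ β j := by
    intro w β i
    simp_rw [Finsupp.add_apply, pow_add, Finset.prod_mul_distrib]
    rw [mul_comm]
    congr 1
    rw [Finset.prod_eq_single i]
    · simp
    · intro j _ hj
      rw [Finsupp.single_apply, if_neg (Ne.symm hj), pow_zero]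
    · intro h
      exact absurd (Finset.mem_univ i) h
  have hdec : ∀ (α : ι →₀ ℕ) (n : ℕ), α.degree = n + 1 →
      ∃ (β : ι →₀ ℕ) (i : ι), α = β + Finsupp.single i 1 ∧ β.degree = n := by
    intro α n hα
    obtain ⟨i, hi⟩ : ∃ i, α i ≠ 0 := by
      by_contra hcon
      push Not at hcon
      have : α = 0 := Finsupp.ext hcon
      subst this
      simp at hα
    have hle : Finsupp.single i 1 ≤ α := by
      rw [Finsupp.single_le_iff]
      omega
    have h1 : (α - Finsupp.single i 1) + Finsupp.single i 1 = α :=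
      tsub_add_cancel_of_le hle
    have h2 := congrArg Finsupp.degree h1
    rw [map_add, Finsupp.degree_single] at h2
    exact ⟨_, i, h1.symm, by omega⟩
  induction n with
  | zero =>
    intro α hα
    obtain ⟨β, i, rfl, hβ⟩ := hdec α 0 hα
    rw [Finsupp.degree_eq_zero_iff] at hβ
    subst hβ
    rw [hstep, hstep]
    simpa using huv i
  | succ n ih =>
    intro α hα
    obtain ⟨β, i, rfl, hβ⟩ := hdec α (n + 1) hα
    rw [hstep, hstep]
    have h1 : u i * ∏ j, u j ^ β j - v i * ∏ j, v j ^ β j =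
        u i * (∏ j, u j ^ β j - ∏ j, v j ^ β j) + (u i - v i) * ∏ j, v j ^ β j := by ring
    rw [h1]
    refine Ideal.add_mem _ ?_ ?_
    · have h2 : J * m ^ (n + 1) = m * (J * m ^ n) := by ring
      rw [h2]
      exact Ideal.mul_mem_mul (hu i) (ih β hβ)
    · refine Ideal.mul_mem_mul (huv i) ?_
      rw [← hβ]
      exact hpow v hv β

theorem sup_pow_le {R : Type*} [CommRing R] (m A B : Ideal R) (hA : A ≤ m) (hB : B ≤ m) (j : ℕ) :
    (A ⊔ B) ^ (j + 1) ≤ A * m ^ j ⊔ B ^ (j + 1) := by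
  induction j with
  | zero => simp
  | succ j ih =>
    calc (A ⊔ B) ^ (j + 1 + 1) = (A ⊔ B) ^ (j + 1) * (A ⊔ B) := pow_succ _ _
      _ ≤ (A * m ^ j ⊔ B ^ (j + 1)) * (A ⊔ B) := Ideal.mul_mono_left ih
      _ = A * m ^ j * (A ⊔ B) ⊔ (B ^ (j + 1) * A ⊔ B ^ (j + 1) * B) := by
          rw [Ideal.sup_mul, Ideal.mul_sup (B ^ (j + 1))]
      _ ≤ A * m ^ (j + 1) ⊔ B ^ (j + 1 + 1) := by
          refine sup_le ?_ (sup_le ?_ ?_)
          · refine le_trans ?_ le_sup_left
            rw [pow_succ, ← mul_assoc]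
            exact Ideal.mul_mono_right (sup_le hA hB)
          · refine le_trans ?_ le_sup_left
            rw [mul_comm]
            exact Ideal.mul_mono_right (Ideal.pow_right_mono hB _)
          · rw [← pow_succ]
            exact le_sup_right

theorem pow_le_of_red {R : Type*} [CommRing R] (m X : Ideal R) (n : ℕ)
    (h : m ^ (n + 1) ≤ X * m ^ n) (j : ℕ) : m ^ (n + j) ≤ X ^ j * m ^ n := by
  induction j with
  | zero => simp
  | succ j ih =>
    calc m ^ (n + (j + 1)) = m * m ^ (n + j) := by ring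
      _ ≤ m * (X ^ j * m ^ n) := Ideal.mul_mono_right ih
      _ = X ^ j * m ^ (n + 1) := by ring
      _ ≤ X ^ j * (X * m ^ n) := Ideal.mul_mono_right h
      _ = X ^ (j + 1) * m ^ n := by ring

theorem red_step {k R : Type*} [Field k] [Infinite k] [CommRing R] [IsLocalRing R]
    [IsNoetherianRing R] [IsAdicComplete (maximalIdeal R) R] (s : k →+* R)
    (hres : ∀ r : R, ∃ c : k, r - s c ∈ maximalIdeal R) {n d : ℕ}
    (hd : ringKrullDim R = d) (hnd : d ≤ n) (x : Fin (n + 1) → R)
    (hx : IsRed (maximalIdeal R) x) : ∃ x' : Fin n → R, IsRed (maximalIdeal R) x' := by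
  classical
  set m := maximalIdeal R with hm
  obtain ⟨hxm, n0, hn0⟩ := hx
  obtain ⟨F, hFC, hFX, hFfin⟩ := exists_noether m m.fg_of_isNoetherianRing s hres x hxm (n0 + 1)
    (hn0.trans Ideal.mul_le_left)
  -- `F` is not injective
  have hninj : ¬ Function.Injective F := by
    intro hinj
    let _ : Algebra (MvPowerSeries (Fin (n + 1)) k) R := F.toAlgebra
    have : Module.Finite (MvPowerSeries (Fin (n + 1)) k) R := hFfin
    have h1 := ringKrullDim_le_of_isIntegral_of_injective
      (A := MvPowerSeries (Fin (n + 1)) k) (B := R) hinj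
    rw [mvPowerSeries_dim, hd] at h1
    have h2 : n + 1 ≤ d := by exact_mod_cast h1
    omega
  rw [injective_iff_map_eq_zero] at hninj
  push Not at hninj
  obtain ⟨g, hFg, hg0⟩ := hninj
  -- the order of `g`
  have hex : ∃ ν, ∃ e : Fin (n + 1) →₀ ℕ, e.degree = ν ∧ MvPowerSeries.coeff e g ≠ 0 := by
    by_contra hcon
    push Not at hcon
    exact hg0 (MvPowerSeries.ext fun e => by simpa using hcon _ e rfl)
  obtain ⟨e0, he0, hce0⟩ := Nat.find_spec hex
  set ν := Nat.find hex with hν
  have hmin : ∀ e : Fin (n + 1) →₀ ℕ, e.degree < ν → MvPowerSeries.coeff e g = 0 := by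
    intro e he
    by_contra hne
    exact Nat.find_min hex he ⟨e, rfl, hne⟩
  let D : Finset (Fin (n + 1) →₀ ℕ) := Finset.finsuppAntidiag Finset.univ ν
  have hD : ∀ e : Fin (n + 1) →₀ ℕ, e ∈ D ↔ e.degree = ν := by
    intro e
    rw [Finset.mem_finsuppAntidiag]
    simp [Finsupp.degree_eq_sum]
  let φ : MvPolynomial (Fin (n + 1)) k :=
    ∑ e ∈ D, MvPolynomial.monomial e (MvPowerSeries.coeff e g)
  have hφc : ∀ e, φ.coeff e = if e.degree = ν then MvPowerSeries.coeff e g else 0 := by
    intro e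
    change MvPolynomial.coeff e (∑ e ∈ D, MvPolynomial.monomial e (MvPowerSeries.coeff e g)) = _
    rw [MvPolynomial.coeff_sum]
    simp_rw [MvPolynomial.coeff_monomial]
    rw [Finset.sum_ite_eq']
    simp_rw [hD]
  have hφ0 : φ ≠ 0 := by
    intro h
    have := hφc e0
    rw [h, if_pos he0] at this
    exact hce0 (by simpa using this.symm)
  have hgφ : g - (φ : MvPowerSeries (Fin (n + 1)) k) ∈ varIdeal (Fin (n + 1)) k ^ (ν + 1) := by
    rw [mem_varIdeal_pow_iff]
    intro e he
    rw [map_sub, MvPolynomial.coeff_coe, hφc]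
    split_ifs with h
    · rw [sub_self]
    · rw [hmin e (by omega), sub_zero]
  have hFpow : ∀ j, ∀ f ∈ varIdeal (Fin (n + 1)) k ^ j, F f ∈ m ^ j := by
    intro j f hf
    have h1 : (varIdeal (Fin (n + 1)) k).map F ≤ m := by
      rw [Ideal.map_span, Ideal.span_le]
      rintro _ ⟨_, ⟨i, rfl⟩, rfl⟩
      rw [hFX]
      exact hxm i
    have h2 : F f ∈ (varIdeal (Fin (n + 1)) k ^ j).map F := Ideal.mem_map_of_mem F hf
    rw [Ideal.map_pow] at h2
    exact Ideal.pow_right_mono h1 j h2
  have hFφ : F (φ : MvPowerSeries (Fin (n + 1)) k) =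
      ∑ e ∈ D, s (MvPowerSeries.coeff e g) * ∏ i, x i ^ e i := by
    have h1 : (φ : MvPowerSeries (Fin (n + 1)) k) =
        ∑ e ∈ D, MvPowerSeries.C (MvPowerSeries.coeff e g) *
          ∏ i, (MvPowerSeries.X i : MvPowerSeries (Fin (n + 1)) k) ^ e i := by
      have h2 : φ = ∑ e ∈ D, MvPolynomial.C (MvPowerSeries.coeff e g) *
          ∏ i, (MvPolynomial.X i : MvPolynomial (Fin (n + 1)) k) ^ e i := by
        refine Finset.sum_congr rfl fun e _ => ?_
        rw [MvPolynomial.monomial_eq, Finsupp.prod_fintype _ _ (fun i => pow_zero _)]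
      rw [h2]
      change MvPolynomial.coeToMvPowerSeries.ringHom _ = _
      rw [map_sum]
      refine Finset.sum_congr rfl fun e _ => ?_
      rw [map_mul, map_prod]
      simp
    rw [h1, map_sum]
    refine Finset.sum_congr rfl fun e _ => ?_
    rw [map_mul, map_prod, hFC]
    simp_rw [map_pow, hFX]
  have hmem1 : ∑ e ∈ D, s (MvPowerSeries.coeff e g) * ∏ i, x i ^ e i ∈ m ^ (ν + 1) := by
    have h1 := hFpow _ _ hgφ
    rw [map_sub, hFg, zero_sub, hFφ] at h1
    exact (Ideal.neg_mem_iff _).mp h1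
  -- `ν ≥ 1`
  have hsunit : ∀ c : k, c ≠ 0 → IsUnit (s c) := fun c hc => (isUnit_iff_ne_zero.mpr hc).map s
  obtain ⟨μ, hμ⟩ : ∃ μ, ν = μ + 1 := by
    refine ⟨ν - 1, ?_⟩
    by_contra hcon
    have hν0 : ν = 0 := by omega
    have he00 : e0 = 0 := by
      rw [← Finsupp.degree_eq_zero_iff, he0, hν0]
    have hD0 : D = {0} := by
      ext e
      rw [hD, hν0, Finsupp.degree_eq_zero_iff, Finset.mem_singleton]
    rw [hD0, Finset.sum_singleton] at hmem1
    have h1 : s (MvPowerSeries.coeff 0 g) ∈ m := by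
      have := Ideal.pow_le_self (Nat.succ_ne_zero ν) hmem1
      simpa using this
    have h2 := hsunit _ (he00 ▸ hce0)
    exact (mem_maximalIdeal _).mp h1 h2
  -- a point
  obtain ⟨a, ha⟩ : ∃ a : Fin (n + 1) → k,
      MvPolynomial.eval a (φ * MvPolynomial.X (Fin.last n)) ≠ 0 := by
    by_contra hcon
    push Not at hcon
    have : φ * MvPolynomial.X (Fin.last n) = 0 := MvPolynomial.funext (by simpa using hcon)
    rcases mul_eq_zero.mp this with h | h
    · exact hφ0 h
    · exact MvPolynomial.X_ne_zero _ h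
  rw [map_mul, MvPolynomial.eval_X] at ha
  obtain ⟨haφ, halast⟩ := mul_ne_zero_iff.mp ha
  have hevφ : MvPolynomial.eval a φ = ∑ e ∈ D, MvPowerSeries.coeff e g * ∏ i, a i ^ e i := by
    change MvPolynomial.eval a (∑ e ∈ D, MvPolynomial.monomial e (MvPowerSeries.coeff e g)) = _
    rw [map_sum]
    refine Finset.sum_congr rfl fun e _ => ?_
    rw [MvPolynomial.eval_monomial, Finsupp.prod_fintype _ _ (fun i => pow_zero _)]
  set t : R := s (a (Fin.last n))⁻¹ * x (Fin.last n) with ht
  let v : Fin (n + 1) → R := fun i => s (a i) * t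
  let x' : Fin n → R := fun i => x i.castSucc - v i.castSucc
  have htm : t ∈ m := Ideal.mul_mem_left _ _ (hxm _)
  have hvm : ∀ i, v i ∈ m := fun i => Ideal.mul_mem_left _ _ htm
  have hx'm : ∀ i, x' i ∈ m := fun i => Ideal.sub_mem _ (hxm _) (hvm _)
  set J' : Ideal R := Ideal.span (Set.range x') with hJ'
  have hJ'm : J' ≤ m := by
    rw [hJ', Ideal.span_le]
    rintro _ ⟨i, rfl⟩
    exact hx'm i
  have hxv : ∀ i, x i - v i ∈ J' := by
    intro i
    refine Fin.lastCases ?_ (fun i => ?_) i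
    · have : x (Fin.last n) - v (Fin.last n) = 0 := by
        change x (Fin.last n) - s (a (Fin.last n)) * (s (a (Fin.last n))⁻¹ * x (Fin.last n)) = 0
        rw [← mul_assoc, ← map_mul, mul_inv_cancel₀ halast, map_one, one_mul, sub_self]
      rw [this]
      exact Ideal.zero_mem _
    · exact Ideal.subset_span ⟨i, rfl⟩
  have htν : t ^ (μ + 1) ∈ J' * m ^ μ ⊔ m ^ (μ + 2) := by
    have h1 : ∑ e ∈ D, s (MvPowerSeries.coeff e g) * (∏ i, x i ^ e i - ∏ i, v i ^ e i) ∈
        J' * m ^ μ := by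
      refine Ideal.sum_mem _ fun e he => Ideal.mul_mem_left _ _ ?_
      exact prod_sub_prod_mem m J' x v hxm hvm hxv μ e (by rw [(hD e).mp he, hμ])
    have h2 : ∑ e ∈ D, s (MvPowerSeries.coeff e g) * ∏ i, v i ^ e i =
        s (MvPolynomial.eval a φ) * t ^ (μ + 1) := by
      rw [hevφ, map_sum, Finset.sum_mul]
      refine Finset.sum_congr rfl fun e he => ?_
      rw [map_mul, map_prod, mul_assoc]
      congr 1
      change ∏ i, (s (a i) * t) ^ e i = _
      simp_rw [mul_pow, map_pow]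
      rw [Finset.prod_mul_distrib, Finset.prod_pow_eq_pow_sum]
      congr 2
      rw [← hμ, ← (hD e).mp he, Finsupp.degree_eq_sum]
    have h3 : s (MvPolynomial.eval a φ) * t ^ (μ + 1) ∈ J' * m ^ μ ⊔ m ^ (μ + 2) := by
      have h4 : s (MvPolynomial.eval a φ) * t ^ (μ + 1) =
          -(∑ e ∈ D, s (MvPowerSeries.coeff e g) * (∏ i, x i ^ e i - ∏ i, v i ^ e i)) +
          ∑ e ∈ D, s (MvPowerSeries.coeff e g) * ∏ i, x i ^ e i := by
        rw [← h2, ← Finset.sum_neg_distrib, ← Finset.sum_add_distrib]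
        refine Finset.sum_congr rfl fun e _ => ?_
        ring
      rw [h4]
      refine Submodule.add_mem_sup ((Ideal.neg_mem_iff _).mpr h1) ?_
      rw [hμ] at hmem1
      exact hmem1
    have h5 : t ^ (μ + 1) = s (MvPolynomial.eval a φ)⁻¹ *
        (s (MvPolynomial.eval a φ) * t ^ (μ + 1)) := by
      rw [← mul_assoc, ← map_mul, inv_mul_cancel₀ haφ, map_one, one_mul]
    rw [h5]
    exact Ideal.mul_mem_left _ _ h3
  have hspan : Ideal.span (Set.range x) ≤ J' ⊔ Ideal.span {t} := by
    rw [Ideal.span_le]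
    rintro _ ⟨i, rfl⟩
    have : x i = (x i - v i) + s (a i) * t := by
      change x i = (x i - s (a i) * t) + s (a i) * t
      ring
    rw [this]
    exact Submodule.add_mem_sup (hxv i) (Ideal.mul_mem_left _ _ (Ideal.mem_span_singleton_self t))
  have htspan : Ideal.span {t} ≤ m := by
    rw [Ideal.span_le]
    simpa using htm
  have hpow : Ideal.span (Set.range x) ^ (μ + 1) ≤ J' * m ^ μ ⊔ m ^ (μ + 2) := by
    refine (Ideal.pow_right_mono hspan _).trans ((sup_pow_le m _ _ hJ'm htspan μ).trans ?_)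
    refine sup_le le_sup_left ?_
    rw [Ideal.span_singleton_pow, Ideal.span_le]
    simpa using htν
  refine ⟨x', hx'm, n0 + μ, ?_⟩
  have hfin : m ^ (n0 + μ + 1) ≤ J' * m ^ (n0 + μ) ⊔ m • m ^ (n0 + μ + 1) := by
    calc m ^ (n0 + μ + 1) = m ^ (n0 + (μ + 1)) := by rw [add_assoc]
      _ ≤ Ideal.span (Set.range x) ^ (μ + 1) * m ^ n0 := pow_le_of_red m _ n0 hn0 _
      _ ≤ (J' * m ^ μ ⊔ m ^ (μ + 2)) * m ^ n0 := Ideal.mul_mono_left hpow
      _ = J' * m ^ (n0 + μ) ⊔ m • m ^ (n0 + μ + 1) := by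
          rw [Ideal.sup_mul, smul_eq_mul]
          congr 1
          · ring
          · ring
  exact Submodule.le_of_le_smul_of_le_jacobson_bot (IsNoetherian.noetherian _)
    (maximalIdeal_le_jacobson _) hfin

theorem red_pad {R : Type*} [CommRing R] (m : Ideal R) {n : ℕ} (x : Fin n → R)
    (hx : IsRed m x) : ∃ x' : Fin (n + 1) → R, IsRed m x' := by
  obtain ⟨hxm, n0, hn0⟩ := hx
  refine ⟨Fin.snoc x 0, ?_, n0, hn0.trans (Ideal.mul_mono_left (Ideal.span_mono ?_))⟩
  · intro i
    refine Fin.lastCases ?_ (fun i => ?_) i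
    · simp
    · simpa using hxm i
  · rintro _ ⟨i, rfl⟩
    exact ⟨i.castSucc, by simp⟩

/-- Existence of a minimal reduction of the maximal ideal. -/
theorem exists_red {k R : Type*} [Field k] [Infinite k] [CommRing R] [IsLocalRing R]
    [IsNoetherianRing R] [IsAdicComplete (maximalIdeal R) R] (s : k →+* R)
    (hres : ∀ r : R, ∃ c : k, r - s c ∈ maximalIdeal R) {d : ℕ}
    (hd : ringKrullDim R = d) : ∃ x : Fin d → R, IsRed (maximalIdeal R) x := by
  classical
  obtain ⟨G, hG⟩ := (maximalIdeal R).fg_of_isNoetherianRing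
  have h0 : ∃ x : Fin G.card → R, IsRed (maximalIdeal R) x := by
    refine ⟨fun i => (G.equivFin.symm i : R), fun i => ?_, 0, ?_⟩
    · rw [← hG]
      exact Ideal.subset_span (G.equivFin.symm i).2
    · rw [zero_add, pow_one, pow_zero, mul_one, ← hG, Ideal.span_le]
      intro g hg
      refine Ideal.subset_span ⟨G.equivFin ⟨g, hg⟩, ?_⟩
      simp
  -- descend to at most `d`
  have hdown : ∀ j r : ℕ, r ≤ d + j → (∃ x : Fin r → R, IsRed (maximalIdeal R) x) →
      ∃ r' ≤ d, ∃ x : Fin r' → R, IsRed (maximalIdeal R) x := by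
    intro j
    induction j with
    | zero => intro r hr h; exact ⟨r, hr, h⟩
    | succ j ih =>
      intro r hr h
      by_cases hrd : r ≤ d
      · exact ⟨r, hrd, h⟩
      · obtain ⟨r0, rfl⟩ : ∃ r0, r = r0 + 1 := ⟨r - 1, by omega⟩
        obtain ⟨x, hx⟩ := h
        exact ih r0 (by omega) (red_step s hres hd (by omega) x hx)
  have hup : ∀ j r : ℕ, (∃ x : Fin r → R, IsRed (maximalIdeal R) x) →
      ∃ x : Fin (r + j) → R, IsRed (maximalIdeal R) x := by
    intro j
    induction j with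
    | zero => intro r h; exact h
    | succ j ih =>
      intro r h
      obtain ⟨x, hx⟩ := ih r h
      exact red_pad _ x hx
  obtain ⟨r, hr, h⟩ := hdown G.card G.card (by omega) h0
  have := hup (d - r) r h
  rwa [Nat.add_sub_cancel' hr] at this

/-- The combined statement: a complete Noetherian local ring of characteristic `p`, dimension `d`
and infinite residue field is a finite extension of `k[[X_1, ..., X_d]]` where the images of the
variables generate a reduction of the maximal ideal. -/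
theorem exists_noether_red (R : Type*) [CommRing R] [IsLocalRing R] [IsNoetherianRing R]
    [IsAdicComplete (maximalIdeal R) R] [Infinite (ResidueField R)] {d : ℕ}
    (hd : ringKrullDim R = d) (s : ResidueField R →+* R) (hs : ∀ a, residue R (s a) = a) :
    ∃ F : MvPowerSeries (Fin d) (ResidueField R) →+* R,
      (∀ a, F (MvPowerSeries.C a) = s a) ∧ F.Finite ∧ Function.Injective F ∧
      IsRed (maximalIdeal R) (fun i => F (MvPowerSeries.X i)) := by
  obtain ⟨x, hx⟩ := exists_red s (fun r => ⟨residue R r, by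
      rw [← residue_eq_zero_iff, map_sub, hs, sub_self]⟩) hd
  obtain ⟨hxm, n0, hn0⟩ := hx
  obtain ⟨F, h1, h2, h3, h4⟩ := exists_noether_normalisation R hd s hs x hxm (n0 + 1)
    (hn0.trans Ideal.mul_le_left)
  refine ⟨F, h1, h3, h4, ?_⟩
  have : (fun i => F (MvPowerSeries.X i)) = x := funext h2
  rw [this]
  exact ⟨hxm, n0, hn0⟩

end Pool.Agent.CN
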