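import Pool.Agent.Lib_helper22.CN.UFD

/-!
Power series rings in finitely many variables over an infinite field are factorial, hence
integrally closed (any finite index type).
-/

namespace Pool.Agent.CN

theorem ufd_PS (σ k : Type*) [Finite σ] [Field k] [Infinite k] :
    UniqueFactorizationMonoid (MvPowerSeries σ k) := by
  obtain ⟨n, ⟨e⟩⟩ := Finite.exists_equiv_fin σ
  have := ufd_mvPowerSeries k n
  exact (MvPowerSeries.renameEquiv k e.symm).toRingEquiv.toMulEquiv.uniqueFactorizationMonoid this

theorem isIntegrallyClosed_PS (σ k : Type*) [Finite σ] [Field k] [Infinite k] :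
    IsIntegrallyClosed (MvPowerSeries σ k) := by
  have := ufd_PS σ k
  infer_instance

end Pool.Agent.CN
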