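import Pool.Agent.Lib_helper22.CN.UFD1
import Pool.Agent.Lib_helper22.CN.Dim

/-!
Power series rings over an infinite field are unique factorisation domains.
-/

namespace Pool.Agent.CN

open MvPowerSeries IsLocalRing

/-- Every power series is a polynomial modulo a power of the ideal of the variables. -/
theorem exists_poly_sub_mem {ι k : Type*} [Finite ι] [CommRing k] (n : ℕ)
    (f : MvPowerSeries ι k) :
    ∃ φ : MvPolynomial ι k, f - (φ : MvPowerSeries ι k) ∈ varIdeal ι k ^ n := by
  classical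
  have := Fintype.ofFinite ι
  have hfin : {e : ι →₀ ℕ | e.degree < n}.Finite := by
    refine Set.Finite.subset (Set.finite_Iic (Finsupp.equivFunOnFinite.symm fun _ : ι => n)) ?_
    intro e he i
    have h1 : e i ≤ e.degree := Finsupp.le_degree i e
    have h2 : e.degree < n := he
    change e i ≤ n
    omega
  refine ⟨∑ e ∈ hfin.toFinset, MvPolynomial.monomial e (coeff e f), ?_⟩
  rw [mem_varIdeal_pow_iff]
  intro e he
  rw [map_sub, MvPolynomial.coeff_coe, MvPolynomial.coeff_sum]
  simp_rw [MvPolynomial.coeff_monomial]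
  rw [Finset.sum_ite_eq', if_pos (by simpa using he), sub_self]

/-- Uniqueness of evaluation homomorphisms into a separated ring. -/
theorem evalHom_unique {ι k S : Type*} [Finite ι] [CommRing k] [CommRing S] (m : Ideal S)
    [IsHausdorff m S] (F G : MvPowerSeries ι k →+* S) (hC : ∀ a, F (C a) = G (C a))
    (hX : ∀ i, F (X i) = G (X i)) (hF : ∀ i, F (X i) ∈ m) : F = G := by
  ext f
  rw [← sub_eq_zero]
  refine IsHausdorff.haus (I := m) inferInstance _ fun n => ?_
  rw [SModEq.zero, smul_eq_mul, Ideal.mul_top]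
  obtain ⟨φ, hφ⟩ := exists_poly_sub_mem n f
  have hφFG : F (φ : MvPowerSeries ι k) = G (φ : MvPowerSeries ι k) := by
    have h1 : F.comp MvPolynomial.coeToMvPowerSeries.ringHom =
        G.comp MvPolynomial.coeToMvPowerSeries.ringHom := by
      refine MvPolynomial.ringHom_ext ?_ ?_
      · intro a
        simpa using hC a
      · intro i
        simpa using hX i
    exact RingHom.congr_fun h1 φ
  have hpow : ∀ (H : MvPowerSeries ι k →+* S), (∀ i, H (X i) ∈ m) →
      ∀ g ∈ varIdeal ι k ^ n, H g ∈ m ^ n := by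
    intro H hH g hg
    have h1 : (varIdeal ι k).map H ≤ m := by
      rw [Ideal.map_span, Ideal.span_le]
      rintro _ ⟨_, ⟨i, rfl⟩, rfl⟩
      exact hH i
    have h2 := Ideal.mem_map_of_mem H hg
    rw [Ideal.map_pow] at h2
    exact Ideal.pow_right_mono h1 n h2
  have h3 : F f - G f = F (f - (φ : MvPowerSeries ι k)) - G (f - (φ : MvPowerSeries ι k)) := by
    rw [map_sub, map_sub, hφFG]
    ring
  rw [h3]
  exact Ideal.sub_mem _ (hpow F hF _ hφ) (hpow G (fun i => hX i ▸ hF i) _ hφ)

instance isAdicComplete_maximalIdeal (ι k : Type*) [Finite ι] [Field k] :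
    IsAdicComplete (maximalIdeal (MvPowerSeries ι k)) (MvPowerSeries ι k) := by
  rw [maximalIdeal_mvPowerSeries]
  infer_instance

/-- Linear changes of variables. -/
theorem exists_shear {k : Type*} [Field k] {n : ℕ} (a : Fin n → k) :
    ∃ σ : MvPowerSeries (Fin (n + 1)) k ≃+* MvPowerSeries (Fin (n + 1)) k,
      (∀ c, σ (C c) = C c) ∧ σ (X 0) = X 0 ∧ ∀ i : Fin n, σ (X i.succ) = X i.succ + C (a i) * X 0 := by
  classical
  have hX : ∀ i : Fin (n + 1), (X i : MvPowerSeries (Fin (n + 1)) k) ∈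
      maximalIdeal (MvPowerSeries (Fin (n + 1)) k) := by
    intro i
    rw [maximalIdeal_mvPowerSeries]
    exact Ideal.subset_span ⟨i, rfl⟩
  have hex : ∀ a : Fin n → k, ∃ F : MvPowerSeries (Fin (n + 1)) k →+* MvPowerSeries (Fin (n + 1)) k,
      (∀ c, F (C c) = C c) ∧ F (X 0) = X 0 ∧ ∀ i : Fin n, F (X i.succ) = X i.succ + C (a i) * X 0 := by
    intro a
    obtain ⟨F, h1, h2⟩ := exists_evalHom (maximalIdeal (MvPowerSeries (Fin (n + 1)) k))
      (C : k →+* MvPowerSeries (Fin (n + 1)) k)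
      (Fin.cons (X 0) (fun i : Fin n => X i.succ + C (a i) * X 0)) (by
        intro i
        refine Fin.cases ?_ (fun i => ?_) i
        · simpa using hX 0
        · simp only [Fin.cons_succ]
          exact Ideal.add_mem _ (hX _) (Ideal.mul_mem_left _ _ (hX 0)))
    exact ⟨F, h1, by simpa using h2 0, fun i => by simpa using h2 i.succ⟩
  obtain ⟨F, hF1, hF2, hF3⟩ := hex a
  obtain ⟨G, hG1, hG2, hG3⟩ := hex (fun i => -a i)
  have hFG : F.comp G = RingHom.id _ := by
    refine evalHom_unique (maximalIdeal (MvPowerSeries (Fin (n + 1)) k)) _ _ ?_ ?_ ?_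
    · intro c
      simp [hF1, hG1]
    · intro i
      refine Fin.cases ?_ (fun i => ?_) i
      · simp [hF2, hG2]
      · simp only [RingHom.comp_apply, hG3, map_add, map_mul, hF1, hF2, hF3, RingHom.id_apply, map_neg]
        ring
    · intro i
      refine Fin.cases ?_ (fun i => ?_) i
      · simpa [hF2, hG2] using hX 0
      · have : F.comp G (X i.succ) = X i.succ := by
          simp only [RingHom.comp_apply, hG3, map_add, map_mul, hF1, hF2, hF3, map_neg]
          ring
        rw [this]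
        exact hX _
  have hGF : G.comp F = RingHom.id _ := by
    refine evalHom_unique (maximalIdeal (MvPowerSeries (Fin (n + 1)) k)) _ _ ?_ ?_ ?_
    · intro c
      simp [hF1, hG1]
    · intro i
      refine Fin.cases ?_ (fun i => ?_) i
      · simp [hF2, hG2]
      · simp only [RingHom.comp_apply, hG3, map_add, map_mul, hG1, hG2, hF3, RingHom.id_apply, map_neg]
        ring
    · intro i
      refine Fin.cases ?_ (fun i => ?_) i
      · simpa [hF2, hG2] using hX 0
      · have : G.comp F (X i.succ) = X i.succ := by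
          simp only [RingHom.comp_apply, hG3, map_add, map_mul, hG1, hG2, hF3, map_neg]
          ring
        rw [this]
        exact hX _
  exact ⟨RingEquiv.ofRingHom F G hFG hGF, hF1, hF2, hF3⟩

/-- The lowest form of a nonzero power series. -/
theorem exists_lowest_form {k : Type*} [Field k] {N : ℕ} {g : MvPowerSeries (Fin N) k}
    (hg : g ≠ 0) : ∃ (ν : ℕ) (D : Finset (Fin N →₀ ℕ)), (∀ e, e ∈ D ↔ e.degree = ν) ∧
      (∃ e ∈ D, coeff e g ≠ 0) ∧
      g - ∑ e ∈ D, C (coeff e g) * ∏ i, (X i : MvPowerSeries (Fin N) k) ^ e i ∈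
        varIdeal (Fin N) k ^ (ν + 1) := by
  classical
  have hex : ∃ ν, ∃ e : Fin N →₀ ℕ, e.degree = ν ∧ coeff e g ≠ 0 := by
    by_contra hcon
    push Not at hcon
    exact hg (MvPowerSeries.ext fun e => by simpa using hcon _ e rfl)
  obtain ⟨ν, ⟨e0, he0, hce0⟩, hmin⟩ : ∃ ν, (∃ e : Fin N →₀ ℕ, e.degree = ν ∧ coeff e g ≠ 0) ∧
      ∀ m < ν, ¬ ∃ e : Fin N →₀ ℕ, e.degree = m ∧ coeff e g ≠ 0 :=
    ⟨Nat.find hex, Nat.find_spec hex, fun m hm => Nat.find_min hex hm⟩
  let D : Finset (Fin N →₀ ℕ) := Finset.finsuppAntidiag Finset.univ ν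
  have hD : ∀ e : Fin N →₀ ℕ, e ∈ D ↔ e.degree = ν := by
    intro e
    rw [Finset.mem_finsuppAntidiag]
    simp [Finsupp.degree_eq_sum]
  refine ⟨ν, D, hD, ⟨e0, (hD e0).mpr he0, hce0⟩, ?_⟩
  have hmon : ∀ e : Fin N →₀ ℕ, C (coeff e g) * ∏ i, (X i : MvPowerSeries (Fin N) k) ^ e i =
      monomial e (coeff e g) := by
    intro e
    have h2 : (MvPolynomial.monomial e (coeff e g) : MvPolynomial (Fin N) k) =
        MvPolynomial.C (coeff e g) * ∏ i, (MvPolynomial.X i : MvPolynomial (Fin N) k) ^ e i := by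
      rw [MvPolynomial.monomial_eq, Finsupp.prod_fintype _ _ (fun i => pow_zero _)]
    have h3 := congrArg (MvPolynomial.coeToMvPowerSeries.ringHom (R := k)) h2
    rw [map_mul, map_prod] at h3
    simp only [map_pow, MvPolynomial.coeToMvPowerSeries.ringHom_apply, MvPolynomial.coe_monomial,
      MvPolynomial.coe_C, MvPolynomial.coe_X] at h3
    exact h3.symm
  simp_rw [hmon]
  rw [mem_varIdeal_pow_iff]
  intro e he
  rw [map_sub, map_sum]
  simp_rw [coeff_monomial]
  by_cases h : e.degree = ν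
  · rw [Finset.sum_ite_eq, if_pos ((hD e).mpr h), sub_self]
  · rw [Finset.sum_ite_eq, if_neg (fun h2 => h ((hD e).mp h2)), sub_zero]
    by_contra hne
    exact hmin e.degree (by omega) ⟨e, rfl, hne⟩

theorem exists_point {k : Type*} [Field k] [Infinite k] {n ν : ℕ} (D : Finset (Fin (n + 1) →₀ ℕ))
    (hD : ∀ e, e ∈ D ↔ e.degree = ν) (c : (Fin (n + 1) →₀ ℕ) → k) (hc : ∃ e ∈ D, c e ≠ 0) :
    ∃ a : Fin (n + 1) → k, a 0 = 1 ∧ ∑ e ∈ D, c e * ∏ i, a i ^ e i ≠ 0 := by
  classical
  let φ : MvPolynomial (Fin (n + 1)) k := ∑ e ∈ D, MvPolynomial.monomial e (c e)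
  have hφ0 : φ ≠ 0 := by
    intro h
    obtain ⟨e, he, hce⟩ := hc
    have h1 : φ.coeff e = c e := by
      change MvPolynomial.coeff e (∑ e ∈ D, MvPolynomial.monomial e (c e)) = _
      rw [MvPolynomial.coeff_sum]
      simp_rw [MvPolynomial.coeff_monomial]
      rw [Finset.sum_ite_eq', if_pos he]
    rw [h] at h1
    exact hce (by simpa using h1.symm)
  obtain ⟨b, hb⟩ : ∃ b : Fin (n + 1) → k, MvPolynomial.eval b (φ * MvPolynomial.X 0) ≠ 0 := by
    by_contra hcon
    push Not at hcon
    have : φ * MvPolynomial.X 0 = 0 := MvPolynomial.funext (by simpa using hcon)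
    rcases mul_eq_zero.mp this with h | h
    · exact hφ0 h
    · exact MvPolynomial.X_ne_zero _ h
  rw [map_mul, MvPolynomial.eval_X] at hb
  obtain ⟨hbφ, hb0⟩ := mul_ne_zero_iff.mp hb
  have hev : MvPolynomial.eval b φ = ∑ e ∈ D, c e * ∏ i, b i ^ e i := by
    change MvPolynomial.eval b (∑ e ∈ D, MvPolynomial.monomial e (c e)) = _
    rw [map_sum]
    refine Finset.sum_congr rfl fun e _ => ?_
    rw [MvPolynomial.eval_monomial, Finsupp.prod_fintype _ _ (fun i => pow_zero _)]
  refine ⟨fun i => b i / b 0, div_self hb0, ?_⟩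
  have h2 : ∑ e ∈ D, c e * ∏ i, (b i / b 0) ^ e i = (b 0 ^ ν)⁻¹ * MvPolynomial.eval b φ := by
    rw [hev, Finset.mul_sum]
    refine Finset.sum_congr rfl fun e he => ?_
    simp_rw [div_pow, Finset.prod_div_distrib]
    rw [Finset.prod_pow_eq_pow_sum, ← Finsupp.degree_eq_sum, (hD e).mp he]
    field_simp
  rw [h2]
  exact mul_ne_zero (inv_ne_zero (pow_ne_zero _ hb0)) hbφ

/-- Power series over an infinite field form a UFD. -/
theorem ufd_mvPowerSeries (k : Type*) [Field k] [Infinite k] (n : ℕ) :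
    UniqueFactorizationMonoid (MvPowerSeries (Fin n) k) := by
  classical
  induction n with
  | zero =>
    exact MulEquiv.uniqueFactorizationMonoid
      (MvPowerSeries.isEmptyEquiv (Fin 0) k).toRingEquiv.symm.toMulEquiv inferInstance
  | succ n ih =>
    rw [UniqueFactorizationMonoid.iff_exists_prime_mem_of_isPrime]
    intro P hPbot hP
    obtain ⟨g, hgP, hg0⟩ := Submodule.exists_mem_ne_zero_of_ne_bot hPbot
    obtain ⟨ν, D, hD, hcD, hgν⟩ := exists_lowest_form hg0
    obtain ⟨a, ha0, ha⟩ := exists_point D hD (fun e => coeff e g) hcD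
    obtain ⟨σ, hσC, hσ0, hσs⟩ := exists_shear (fun i : Fin n => a i.succ)
    let E : MvPowerSeries (Fin (n + 1)) k ≃+* PowerSeries (MvPowerSeries (Fin n) k) :=
      σ.trans (finSuccEquiv k n).toRingEquiv
    let κ := ResidueField (MvPowerSeries (Fin n) k)
    let Ψ : MvPowerSeries (Fin (n + 1)) k →+* PowerSeries κ :=
      (PowerSeries.map (residue (MvPowerSeries (Fin n) k))).comp E.toRingHom
    have hΨ : ∀ z, Ψ z = PowerSeries.map (residue (MvPowerSeries (Fin n) k))
        (finSuccEquiv k n (σ z)) := fun z => rfl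
    have hΨC : ∀ c : k, Ψ (C c) =
        PowerSeries.C (residue (MvPowerSeries (Fin n) k) (C c)) := by
      intro c
      rw [hΨ]
      rw [hσC, finSuccEquiv_C, PowerSeries.map_C]
    have hΨX : ∀ i, Ψ (X i) =
        PowerSeries.C (residue (MvPowerSeries (Fin n) k) (C (a i))) * PowerSeries.X := by
      intro i
      rw [hΨ]
      refine Fin.cases ?_ (fun i => ?_) i
      · rw [hσ0, finSuccEquiv_X_zero, PowerSeries.map_X, ha0]
        simp
      · rw [hσs, map_add, map_mul, finSuccEquiv_X_zero, finSuccEquiv_X_succ, finSuccEquiv_C,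
          map_add, map_mul, PowerSeries.map_X, PowerSeries.map_C, PowerSeries.map_C]
        have h1 : residue (MvPowerSeries (Fin n) k) (X i) = 0 := by
          rw [residue_eq_zero_iff, maximalIdeal_mvPowerSeries]
          exact Ideal.subset_span ⟨i, rfl⟩
        rw [h1, map_zero, zero_add]
    have hΨpow : Ψ (g - ∑ e ∈ D, C (coeff e g) * ∏ i, (X i : MvPowerSeries (Fin (n + 1)) k) ^ e i) ∈
        (Ideal.span {(PowerSeries.X : PowerSeries κ)}) ^ (ν + 1) := by
      have h1 : (varIdeal (Fin (n + 1)) k).map Ψ ≤ Ideal.span {(PowerSeries.X : PowerSeries κ)} := by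
        rw [Ideal.map_span, Ideal.span_le]
        rintro _ ⟨_, ⟨i, rfl⟩, rfl⟩
        rw [hΨX]
        exact Ideal.mul_mem_left _ _ (Ideal.mem_span_singleton_self _)
      have h2 := Ideal.mem_map_of_mem Ψ hgν
      rw [Ideal.map_pow] at h2
      exact Ideal.pow_right_mono h1 _ h2
    rw [Ideal.span_singleton_pow, Ideal.mem_span_singleton] at hΨpow
    have hΨφ : Ψ (∑ e ∈ D, C (coeff e g) * ∏ i, (X i : MvPowerSeries (Fin (n + 1)) k) ^ e i) =
        PowerSeries.C (residue (MvPowerSeries (Fin n) k) (C (∑ e ∈ D, coeff e g * ∏ i, a i ^ e i))) *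
          PowerSeries.X ^ ν := by
      rw [map_sum, map_sum, map_sum, map_sum, Finset.sum_mul]
      refine Finset.sum_congr rfl fun e he => ?_
      rw [map_mul, map_prod, hΨC]
      simp_rw [map_pow, hΨX, mul_pow]
      rw [Finset.prod_mul_distrib, Finset.prod_pow_eq_pow_sum, ← Finsupp.degree_eq_sum,
        (hD e).mp he, map_mul, map_mul, map_mul, map_prod, map_prod, map_prod]
      simp_rw [map_pow]
      ring
    have hΨg : Ψ g ≠ 0 := by
      intro h0
      rw [map_sub, h0, zero_sub, hΨφ] at hΨpow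
      rw [PowerSeries.X_pow_dvd_iff] at hΨpow
      have h1 := hΨpow ν (Nat.lt_succ_self ν)
      rw [map_neg, neg_eq_zero, PowerSeries.coeff_C_mul, PowerSeries.coeff_X_pow_self, mul_one] at h1
      have h2 : (C (∑ e ∈ D, coeff e g * ∏ i, a i ^ e i) : MvPowerSeries (Fin n) k) ∈
          maximalIdeal (MvPowerSeries (Fin n) k) := (residue_eq_zero_iff _).mp h1
      rw [mem_maximalIdeal, mem_nonunits_iff] at h2
      exact h2 ((isUnit_iff_ne_zero.mpr ha).map C)
    have hPE : (P.map E.toRingHom).IsPrime := Ideal.map_isPrime_of_equiv E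
    obtain ⟨x, hxP, hx⟩ := exists_prime_of_general (P.map E.toRingHom) (E g)
      (Ideal.mem_map_of_mem _ hgP) hΨg
    obtain ⟨y, hy, rfl⟩ := (Ideal.mem_map_iff_of_surjective E.toRingHom E.surjective).mp hxP
    exact ⟨y, hy, (MulEquiv.prime_iff E.toMulEquiv).mp hx⟩

theorem isIntegrallyClosed_mvPowerSeries (k : Type*) [Field k] [Infinite k] (n : ℕ) :
    IsIntegrallyClosed (MvPowerSeries (Fin n) k) := by
  have := ufd_mvPowerSeries k n
  infer_instance

end Pool.Agent.CN
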