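import Mathlib

/-!
A prime ideal of `A⟦X⟧`, `A` a complete local UFD, which contains a power series with nonzero
reduction contains a prime element.
-/

namespace Pool.Agent.CN

open Polynomial IsLocalRing

theorem distinguished_of_dvd {A : Type*} [CommRing A] [IsDomain A] [IsLocalRing A] {f g : A[X]}
    (hf : f.IsDistinguishedAt (maximalIdeal A)) (hg : g.Monic) (hgf : g ∣ f) :
    g.IsDistinguishedAt (maximalIdeal A) := by
  have h1 : f.map (residue A) = X ^ f.natDegree := hf.map_eq_X_pow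
  have h2 : g.map (residue A) ∣ X ^ f.natDegree := by
    rw [← h1]
    exact Polynomial.map_dvd _ hgf
  obtain ⟨i, -, hi⟩ := (dvd_prime_pow prime_X _).mp h2
  have h3 : g.map (residue A) = X ^ i :=
    Polynomial.eq_of_monic_of_associated (hg.map _) (monic_X_pow i) hi
  have hdeg : g.natDegree = i := by
    have h4 := congrArg natDegree h3
    rwa [hg.natDegree_map, natDegree_X_pow] at h4
  refine ⟨⟨?_⟩, hg⟩
  intro n hn
  have h5 := congrArg (fun q => q.coeff n) h3
  simp only [coeff_map, coeff_X_pow] at h5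
  rw [if_neg (by omega)] at h5
  exact (residue_eq_zero_iff _).mp h5

theorem prime_coe_of_distinguished {A : Type*} [CommRing A] [IsDomain A] [IsLocalRing A]
    [IsAdicComplete (maximalIdeal A) A] {f : A[X]}
    (hf : f.IsDistinguishedAt (maximalIdeal A)) (hp : Prime f) :
    Prime (f : PowerSeries A) := by
  have hne : (f : PowerSeries A) ≠ 0 := by
    rw [Ne, Polynomial.coe_eq_zero_iff]
    exact hp.ne_zero
  have e := hf.algEquivQuotient
  have h1 : (Ideal.span {f}).IsPrime := (Ideal.span_singleton_prime hp.ne_zero).mpr hp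
  have h2 : IsDomain (A[X] ⧸ Ideal.span {f}) := Ideal.Quotient.isDomain _
  have h3 : IsDomain (PowerSeries A ⧸ Ideal.span {(f : PowerSeries A)}) :=
    MulEquiv.isDomain (A[X] ⧸ Ideal.span {f}) e.symm.toMulEquiv
  rw [← Ideal.span_singleton_prime hne]
  exact (Ideal.Quotient.isDomain_iff_prime _).mp h3

theorem exists_prime_of_general {A : Type*} [CommRing A] [IsDomain A] [IsLocalRing A]
    [IsAdicComplete (maximalIdeal A) A] [UniqueFactorizationMonoid A]
    (P : Ideal (PowerSeries A)) [P.IsPrime] (g : PowerSeries A) (hgP : g ∈ P)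
    (hg : g.map (residue A) ≠ 0) : ∃ x ∈ P, Prime x := by
  classical
  obtain ⟨f, h, H⟩ := g.exists_isWeierstrassFactorization hg
  have hfP : (f : PowerSeries A) ∈ P := by
    have h1 := H.eq_mul
    rw [h1] at hgP
    obtain ⟨u, hu⟩ := H.isUnit
    have h2 := Ideal.mul_mem_right ((u⁻¹ : (PowerSeries A)ˣ) : PowerSeries A) P hgP
    rwa [← hu, mul_assoc, Units.mul_inv, mul_one] at h2
  let Q : Ideal A[X] := P.comap (Polynomial.coeToPowerSeries.ringHom)
  have hQp : Q.IsPrime := Ideal.comap_isPrime _ _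
  have hfQ : f ∈ Q := hfP
  have hf0 : f ≠ 0 := H.isDistinguishedAt.monic.ne_zero
  -- a prime factor in `Q`
  obtain ⟨f1, hf1Q, hf1p, hf1d⟩ : ∃ f1, f1 ∈ Q ∧ Prime f1 ∧ f1 ∣ f := by
    obtain ⟨s, hs, u, hu⟩ := UniqueFactorizationMonoid.exists_prime_factors f hf0
    have h1 : s.prod ∈ Q := by
      have h2 : s.prod = f * ((u⁻¹ : A[X]ˣ) : A[X]) := by
        rw [← hu, mul_assoc, Units.mul_inv, mul_one]
      rw [h2]
      exact Ideal.mul_mem_right _ _ hfQ
    obtain ⟨a, ha, haQ⟩ := (Ideal.IsPrime.multiset_prod_mem_iff_exists_mem hQp s).mp h1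
    exact ⟨a, haQ, hs a ha, (Multiset.dvd_prod ha).trans ⟨u, hu.symm⟩⟩
  -- normalise
  obtain ⟨t, ht⟩ := hf1d
  have hlc : f1.leadingCoeff * t.leadingCoeff = 1 := by
    rw [← leadingCoeff_mul, ← ht]
    exact H.isDistinguishedAt.monic
  have hmonic : (C t.leadingCoeff * f1).Monic := by
    rw [Monic, leadingCoeff_mul, leadingCoeff_C, mul_comm]
    exact hlc
  have hunit : IsUnit (C t.leadingCoeff : A[X]) := by
    rw [isUnit_C]
    exact IsUnit.of_mul_eq_one _ (by rw [mul_comm]; exact hlc)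
  have hassoc : Associated f1 (C t.leadingCoeff * f1) := (associated_unit_mul_left f1 _ hunit).symm
  have hprime : Prime (C t.leadingCoeff * f1) := hassoc.prime hf1p
  have hdvd : C t.leadingCoeff * f1 ∣ f := hassoc.dvd_iff_dvd_left.mp ⟨t, ht⟩
  have hdist := distinguished_of_dvd H.isDistinguishedAt hmonic hdvd
  refine ⟨_, ?_, prime_coe_of_distinguished hdist hprime⟩
  exact (Ideal.mul_mem_left Q _ hf1Q : C t.leadingCoeff * f1 ∈ Q)

end Pool.Agent.CN
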